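import Mathlib

set_option autoImplicit false

namespace Pool.Agent.Parafree

/-- A group is parafree if it is residually nilpotent and there is a free group with isomorphic
quotients by all terms of the lower central series. (In Mathlib's indexing
`(⊤ : Subgroup P).lowerCentralSeries n` is the term `γ_{n+1}(P)`.) -/
def IsParafree (P : Type) [Group P] : Prop :=
  (⨅ n : ℕ, (⊤ : Subgroup P).lowerCentralSeries n) = ⊥ ∧
  ∃ X : Type, ∀ n : ℕ, Nonempty ((P ⧸ (⊤ : Subgroup P).lowerCentralSeries n) ≃*
    (FreeGroup X ⧸ (⊤ : Subgroup (FreeGroup X)).lowerCentralSeries n))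

/-- A group is torsion-free if it has no nontrivial elements of finite order. -/
def TorsionFree (G : Type) [Group G] : Prop := ∀ g : G, IsOfFinOrder g → g = 1

/-- A group is a `𝒰`-group if roots are unique whenever they exist. -/
def IsUGroup (G : Type) [Group G] : Prop :=
  ∀ (x y : G) (n : ℕ), 1 ≤ n → x ^ n = y ^ n → x = y

end Pool.Agent.Parafree
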