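import Mathlib

set_option autoImplicit false

/-!
The group `P = ⟨x, u, a, b ∣ u x² u x⁻¹ u⁻¹ x⁻¹ = [a, b]⟩`, realised as a semidirect product of a
free group of infinite rank with the integers.
-/

namespace Pool.Agent.Parafree

open FreeGroup (of)
open SemidirectProduct

/-- Letters of the free group `K`. -/
inductive Letter where
  | X (k : ℤ) : Letter
  | U (k : ℤ) : Letter
  | B : Letter

/-- The free group of infinite rank. -/
abbrev K := FreeGroup Letter

/-- The word `u x² u x⁻¹ u⁻¹ x⁻¹`. -/
def r {H : Type*} [Group H] (x u : H) : H := u * x * x * u * x⁻¹ * u⁻¹ * x⁻¹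

lemma map_r {H H' : Type*} [Group H] [Group H'] (f : H →* H') (x u : H) :
    f (r x u) = r (f x) (f u) := by simp [r]

/-- The homomorphism shifting the letters. -/
def tauHom : K →* K := FreeGroup.lift fun l => match l with
  | .X k => of (.X (k + 1))
  | .U k => of (.U (k + 1))
  | .B => r (of (.X 0)) (of (.U 0)) * of .B

/-- The inverse of the homomorphism shifting the letters. -/
def tauInv : K →* K := FreeGroup.lift fun l => match l with
  | .X k => of (.X (k - 1))
  | .U k => of (.U (k - 1))
  | .B => (r (of (.X (-1))) (of (.U (-1))))⁻¹ * of .B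

@[simp] lemma tauHom_X (k : ℤ) : tauHom (of (.X k)) = of (.X (k + 1)) := by simp [tauHom]
@[simp] lemma tauHom_U (k : ℤ) : tauHom (of (.U k)) = of (.U (k + 1)) := by simp [tauHom]
@[simp] lemma tauHom_B : tauHom (of .B) = r (of (.X 0)) (of (.U 0)) * of .B := by simp [tauHom]
@[simp] lemma tauInv_X (k : ℤ) : tauInv (of (.X k)) = of (.X (k - 1)) := by simp [tauInv]
@[simp] lemma tauInv_U (k : ℤ) : tauInv (of (.U k)) = of (.U (k - 1)) := by simp [tauInv]
@[simp] lemma tauInv_B : tauInv (of .B) = (r (of (.X (-1))) (of (.U (-1))))⁻¹ * of .B := by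
  simp [tauInv]

/-- The automorphism of `K` shifting the letters. -/
def tau : MulAut K := MonoidHom.toMulEquiv tauHom tauInv
  (by
    ext l
    rcases l with k | k | _
    · simp
    · simp
    · simp [map_r])
  (by
    ext l
    rcases l with k | k | _
    · simp
    · simp
    · simp [map_r])

@[simp] lemma tau_X (k : ℤ) : tau (of (.X k)) = of (.X (k + 1)) := tauHom_X k
@[simp] lemma tau_U (k : ℤ) : tau (of (.U k)) = of (.U (k + 1)) := tauHom_U k
@[simp] lemma tau_B : tau (of .B) = r (of (.X 0)) (of (.U 0)) * of .B := tauHom_B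

/-- The action of the integers on `K`. -/
def act : Multiplicative ℤ →* MulAut K := zpowersHom (MulAut K) tau

@[simp] lemma act_one : act (Multiplicative.ofAdd 1) = tau := by simp [act]

/-- The group `P`. -/
abbrev P := K ⋊[act] Multiplicative ℤ

/-- generator `x` -/
def px : P := inl (of (.X 0))
/-- generator `u` -/
def pu : P := inl (of (.U 0))
/-- generator `b` -/
def pb : P := inl (of .B)
/-- generator `a` -/
def pa : P := inr (Multiplicative.ofAdd 1)

lemma conj_pa (k : K) : pa * inl k * pa⁻¹ = inl (tau k) := by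
  have h := inl_aut (φ := act) (Multiplicative.ofAdd 1) k
  rw [act_one] at h
  rw [h, pa, map_inv]

lemma relation : r px pu = pa * pb * pa⁻¹ * pb⁻¹ := by
  rw [pb, conj_pa, px, pu, tau_B, map_mul, map_r, mul_inv_cancel_right]

@[simp] lemma tau_inv_X (k : ℤ) : tau⁻¹ (of (.X k)) = of (.X (k - 1)) := tauInv_X k
@[simp] lemma tau_inv_U (k : ℤ) : tau⁻¹ (of (.U k)) = of (.U (k - 1)) := tauInv_U k

lemma tau_zpow_X (n : ℤ) : ∀ k : ℤ, (tau ^ n) (of (.X k)) = of (.X (k + n)) := by
  induction n with
  | zero => intro k; simp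
  | succ n ih =>
    intro k
    rw [zpow_add_one, MulAut.mul_apply, tau_X, ih]
    congr 2; ring
  | pred n ih =>
    intro k
    rw [zpow_sub_one, MulAut.mul_apply, tau_inv_X, ih]
    congr 2; ring

lemma tau_zpow_U (n : ℤ) : ∀ k : ℤ, (tau ^ n) (of (.U k)) = of (.U (k + n)) := by
  induction n with
  | zero => intro k; simp
  | succ n ih =>
    intro k
    rw [zpow_add_one, MulAut.mul_apply, tau_U, ih]
    congr 2; ring
  | pred n ih =>
    intro k
    rw [zpow_sub_one, MulAut.mul_apply, tau_inv_U, ih]
    congr 2; ring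

lemma pa_zpow (n : ℤ) : pa ^ n = inr (Multiplicative.ofAdd n) := by
  rw [pa, ← map_zpow, ← ofAdd_zsmul, smul_eq_mul, mul_one]

lemma conj_zpow (n : ℤ) (k : K) : pa ^ n * inl k * (pa ^ n)⁻¹ = inl ((tau ^ n) k) := by
  have h := inl_aut (φ := act) (Multiplicative.ofAdd n) k
  rw [pa_zpow, ← map_inv, ← h, act, zpowersHom_apply, toAdd_ofAdd]

lemma conj_zpow_X (n : ℤ) : pa ^ n * px * (pa ^ n)⁻¹ = inl (of (.X n)) := by
  rw [px, conj_zpow, tau_zpow_X, zero_add]

lemma conj_zpow_U (n : ℤ) : pa ^ n * pu * (pa ^ n)⁻¹ = inl (of (.U n)) := by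
  rw [pu, conj_zpow, tau_zpow_U, zero_add]

/-- `P` is generated by `x`, `u`, `a`, `b`. -/
lemma closure_eq_top : Subgroup.closure ({px, pu, pa, pb} : Set P) = ⊤ := by
  set C := Subgroup.closure ({px, pu, pa, pb} : Set P) with hC
  have hx : px ∈ C := Subgroup.subset_closure (by simp)
  have hu : pu ∈ C := Subgroup.subset_closure (by simp)
  have ha : pa ∈ C := Subgroup.subset_closure (by simp)
  have hb : pb ∈ C := Subgroup.subset_closure (by simp)
  have hl : ∀ l : Letter, (inl (of l) : P) ∈ C := by
    intro l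
    rcases l with k | k | _
    · rw [← conj_zpow_X]
      exact C.mul_mem (C.mul_mem (C.zpow_mem ha _) hx) (C.inv_mem (C.zpow_mem ha _))
    · rw [← conj_zpow_U]
      exact C.mul_mem (C.mul_mem (C.zpow_mem ha _) hu) (C.inv_mem (C.zpow_mem ha _))
    · exact hb
  rw [eq_top_iff]
  intro p _
  rw [← inl_left_mul_inr_right p]
  refine C.mul_mem ?_ ?_
  · induction p.left using FreeGroup.induction_on with
    | C1 => rw [map_one]; exact C.one_mem
    | of l => exact hl l
    | inv_of l ih => rw [map_inv]; exact C.inv_mem ih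
    | mul x y hx hy => rw [map_mul]; exact C.mul_mem hx hy
  · have : (inr p.right : P) = pa ^ (Multiplicative.toAdd p.right) := by
      rw [pa_zpow, ofAdd_toAdd]
    rw [this]
    exact C.zpow_mem ha _

/-- Two homomorphisms out of `P` agreeing on the four generators are equal. -/
lemma hom_ext {H : Type*} [Group H] {f g : P →* H} (hx : f px = g px) (hu : f pu = g pu)
    (ha : f pa = g pa) (hb : f pb = g pb) : f = g := by
  refine MonoidHom.eq_of_eqOn_dense closure_eq_top ?_
  intro z hz
  simp only [Set.mem_insert_iff, Set.mem_singleton_iff] at hz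
  rcases hz with rfl | rfl | rfl | rfl <;> assumption

section lift

variable {H : Type*} [Group H] (x u a b : H)

/-- The restriction to `K` of the homomorphism from `P` determined by `x, u, a, b`. -/
def liftK : K →* H := FreeGroup.lift fun l => match l with
  | .X k => a ^ k * x * (a ^ k)⁻¹
  | .U k => a ^ k * u * (a ^ k)⁻¹
  | .B => b

@[simp] lemma liftK_X (k : ℤ) : liftK x u a b (of (.X k)) = a ^ k * x * (a ^ k)⁻¹ := by
  simp [liftK]
@[simp] lemma liftK_U (k : ℤ) : liftK x u a b (of (.U k)) = a ^ k * u * (a ^ k)⁻¹ := by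
  simp [liftK]
@[simp] lemma liftK_B : liftK x u a b (of .B) = b := by
  simp [liftK]

variable {x u a b}

lemma liftK_tau (h : r x u = a * b * a⁻¹ * b⁻¹) (k : K) :
    liftK x u a b (tau k) = a * liftK x u a b k * a⁻¹ := by
  have : (liftK x u a b).comp tau.toMonoidHom =
      (MulAut.conj a).toMonoidHom.comp (liftK x u a b) := by
    ext l
    rcases l with k | k | _
    · simp [zpow_add, mul_assoc]
      group
    · simp [zpow_add, mul_assoc]
      group
    · simp [map_r, h]
  exact DFunLike.congr_fun this k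

lemma liftK_tau_zpow (h : r x u = a * b * a⁻¹ * b⁻¹) (n : ℤ) : ∀ k : K,
    liftK x u a b ((tau ^ n) k) = a ^ n * liftK x u a b k * (a ^ n)⁻¹ := by
  induction n with
  | zero => intro k; simp
  | succ n ih =>
    intro k
    rw [zpow_add_one, MulAut.mul_apply, ih, liftK_tau h, zpow_add_one]
    group
  | pred n ih =>
    intro k
    have h1 := liftK_tau h (tau⁻¹ k)
    rw [← MulAut.mul_apply, mul_inv_cancel, MulAut.one_apply] at h1
    rw [zpow_sub_one, MulAut.mul_apply, ih, h1, zpow_sub_one]
    group

/-- The homomorphism from `P` determined by elements `x, u, a, b` satisfying the relation. -/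
def lift (h : r x u = a * b * a⁻¹ * b⁻¹) : P →* H :=
  SemidirectProduct.lift (liftK x u a b) (zpowersHom H a) (by
    intro g
    ext l
    have h1 := liftK_tau_zpow h (Multiplicative.toAdd g) (of l)
    have h2 : (MulAut.conj a ^ Multiplicative.toAdd g) (liftK x u a b (of l)) =
        a ^ Multiplicative.toAdd g * liftK x u a b (of l) * (a ^ Multiplicative.toAdd g)⁻¹ := by
      rw [← map_zpow, MulAut.conj_apply]
    simpa [act, h2] using h1)

@[simp] lemma lift_inl (h : r x u = a * b * a⁻¹ * b⁻¹) (k : K) :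
    lift h (inl k) = liftK x u a b k := by
  simp [lift]

@[simp] lemma lift_px (h : r x u = a * b * a⁻¹ * b⁻¹) : lift h px = x := by
  simp [lift, px]
@[simp] lemma lift_pu (h : r x u = a * b * a⁻¹ * b⁻¹) : lift h pu = u := by
  simp [lift, pu]
@[simp] lemma lift_pa (h : r x u = a * b * a⁻¹ * b⁻¹) : lift h pa = a := by
  simp [lift, pa]
@[simp] lemma lift_pb (h : r x u = a * b * a⁻¹ * b⁻¹) : lift h pb = b := by
  simp [lift, pb]

end lift

end Pool.Agent.Parafree
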