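import Mathlib

set_option autoImplicit false

/-!
Free groups on countable sets are residually finite 2-groups, by a ping-pong embedding into the
level four congruence subgroup of `SL_2(ℤ)`.
-/

namespace Pool.Agent.Parafree

open Matrix

/-- Nonzero integer vectors. -/
abbrev V := {p : ℤ × ℤ // p ≠ 0}

/-- The group of integer matrices of determinant one. -/
abbrev G := Matrix.SpecialLinearGroup (Fin 2) ℤ

lemma det_eq (g : G) : g 0 0 * g 1 1 - g 0 1 * g 1 0 = 1 := by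
  have h := g.det_coe
  rw [Matrix.det_fin_two] at h
  exact h

lemma smul_aux (g : G) (v : V) :
    ((g 0 0 * v.1.1 + g 0 1 * v.1.2, g 1 0 * v.1.1 + g 1 1 * v.1.2) : ℤ × ℤ) ≠ 0 := by
  intro h
  apply v.2
  have h1 : g 0 0 * v.1.1 + g 0 1 * v.1.2 = 0 := congrArg Prod.fst h
  have h2 : g 1 0 * v.1.1 + g 1 1 * v.1.2 = 0 := congrArg Prod.snd h
  have hd := det_eq g
  ext
  · change v.1.1 = 0
    linear_combination (-v.1.1) * hd + g 1 1 * h1 - g 0 1 * h2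
  · change v.1.2 = 0
    linear_combination (-v.1.2) * hd + g 0 0 * h2 - g 1 0 * h1

instance : MulAction G V where
  smul g v := ⟨(g 0 0 * v.1.1 + g 0 1 * v.1.2, g 1 0 * v.1.1 + g 1 1 * v.1.2), smul_aux g v⟩
  one_smul v := by
    apply Subtype.ext
    ext
    · change (1 : G) 0 0 * v.1.1 + (1 : G) 0 1 * v.1.2 = v.1.1
      simp
    · change (1 : G) 1 0 * v.1.1 + (1 : G) 1 1 * v.1.2 = v.1.2
      simp
  mul_smul g h v := by
    apply Subtype.ext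
    ext
    · change (g * h) 0 0 * v.1.1 + (g * h) 0 1 * v.1.2 =
        g 0 0 * (h 0 0 * v.1.1 + h 0 1 * v.1.2) + g 0 1 * (h 1 0 * v.1.1 + h 1 1 * v.1.2)
      simp [Matrix.mul_apply, Fin.sum_univ_two]
      ring
    · change (g * h) 1 0 * v.1.1 + (g * h) 1 1 * v.1.2 =
        g 1 0 * (h 0 0 * v.1.1 + h 0 1 * v.1.2) + g 1 1 * (h 1 0 * v.1.1 + h 1 1 * v.1.2)
      simp [Matrix.mul_apply, Fin.sum_univ_two]
      ring

lemma smul_fst (g : G) (v : V) : (g • v).1.1 = g 0 0 * v.1.1 + g 0 1 * v.1.2 := rfl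
lemma smul_snd (g : G) (v : V) : (g • v).1.2 = g 1 0 * v.1.1 + g 1 1 * v.1.2 := rfl

/-- The parabolic matrix fixing the rational point `c`. -/
def g (c : ℤ) : G := ⟨!![1 + 4 * c, -4 * c ^ 2; 4, 1 - 4 * c], by
  rw [Matrix.det_fin_two_of]; ring⟩

/-- Deviation of the slope of `v` from `c`. -/
def dev (c : ℤ) (v : V) : ℤ := v.1.1 - c * v.1.2

lemma snd_g (c : ℤ) (v : V) : (g c • v).1.2 = v.1.2 + 4 * dev c v := by
  rw [smul_snd]; simp [g, dev]; ring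

lemma dev_g (c : ℤ) (v : V) : dev c (g c • v) = dev c v := by
  rw [dev, smul_fst, smul_snd]; simp [g, dev]; ring

lemma dev_g_inv (c : ℤ) (v : V) : dev c ((g c)⁻¹ • v) = dev c v := by
  have h := dev_g c ((g c)⁻¹ • v)
  rw [smul_inv_smul] at h
  exact h.symm

lemma snd_g_inv (c : ℤ) (v : V) : ((g c)⁻¹ • v).1.2 = v.1.2 - 4 * dev c v := by
  have h := snd_g c ((g c)⁻¹ • v)
  rw [smul_inv_smul, dev_g_inv] at h
  linarith

lemma snd_ne_zero (c : ℤ) (v : V) (h : dev c v = 0) : 0 < v.1.2 ^ 2 := by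
  have : v.1.2 ≠ 0 := by
    intro h2
    apply v.2
    ext
    · simp only [dev, h2, mul_zero, sub_zero] at h
      exact h
    · exact h2
  positivity

/-- Attracting set. -/
def X (c : ℤ) : Set V := {v | dev c v = 0 ∨ 2 * dev c v ^ 2 < v.1.2 * dev c v}
/-- Repelling set. -/
def Y (c : ℤ) : Set V := {v | dev c v ≠ 0 ∧ v.1.2 * dev c v ≤ - 2 * dev c v ^ 2}

lemma X_bound {c : ℤ} {v : V} (h : v ∈ X c) :
    0 < v.1.2 ^ 2 ∧ - v.1.2 ^ 2 ≤ 2 * v.1.2 * dev c v ∧ 2 * v.1.2 * dev c v < v.1.2 ^ 2 := by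
  rcases h with h | h
  · have := snd_ne_zero c v h
    rw [h]
    refine ⟨this, ?_, ?_⟩ <;> linarith
  · refine ⟨?_, ?_, ?_⟩
    · nlinarith [sq_nonneg (v.1.2 - 2 * dev c v), sq_nonneg (dev c v)]
    · nlinarith [sq_nonneg (v.1.2 - 2 * dev c v), sq_nonneg (dev c v), sq_nonneg (v.1.2)]
    · nlinarith [sq_nonneg (v.1.2 - 2 * dev c v), sq_nonneg (dev c v)]

lemma Y_bound {c : ℤ} {v : V} (h : v ∈ Y c) :
    0 < v.1.2 ^ 2 ∧ - v.1.2 ^ 2 ≤ 2 * v.1.2 * dev c v ∧ 2 * v.1.2 * dev c v < v.1.2 ^ 2 := by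
  obtain ⟨h1, h2⟩ := h
  have h3 : 0 < dev c v ^ 2 := by positivity
  have h4 : v.1.2 ≠ 0 := by
    intro h0
    rw [h0] at h2
    linarith
  have h5 : 0 < v.1.2 ^ 2 := by positivity
  refine ⟨h5, ?_, ?_⟩
  · nlinarith [sq_nonneg (v.1.2 + 2 * dev c v)]
  · nlinarith

lemma eq_of_bounds {c d : ℤ} {v : V}
    (h : 0 < v.1.2 ^ 2 ∧ - v.1.2 ^ 2 ≤ 2 * v.1.2 * dev c v ∧ 2 * v.1.2 * dev c v < v.1.2 ^ 2)
    (h' : 0 < v.1.2 ^ 2 ∧ - v.1.2 ^ 2 ≤ 2 * v.1.2 * dev d v ∧ 2 * v.1.2 * dev d v < v.1.2 ^ 2) :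
    c = d := by
  have h1 : 2 * v.1.2 * dev c v - 2 * v.1.2 * dev d v = 2 * (d - c) * v.1.2 ^ 2 := by
    simp only [dev]; ring
  have h2 : 2 * (d - c) * v.1.2 ^ 2 < 2 * v.1.2 ^ 2 := by linarith [h.2.2, h'.2.1]
  have h3 : - 2 * v.1.2 ^ 2 < 2 * (d - c) * v.1.2 ^ 2 := by linarith [h'.2.2, h.2.1]
  have h4 : d - c < 1 := by
    by_contra hc
    push Not at hc
    nlinarith [h.1]
  have h5 : -1 < d - c := by
    by_contra hc
    push Not at hc
    nlinarith [h.1]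
  omega

/-- The ping-pong representation of the free group on `ℤ`. -/
def φ : FreeGroup ℤ →* G := FreeGroup.lift g

lemma φ_injective : Function.Injective φ := by
  refine FreeGroup.injective_lift_of_ping_pong g X Y ?_ ?_ ?_ ?_ ?_ ?_
  · intro c
    exact ⟨⟨(c, 1), by simp⟩, Or.inl (by simp [dev])⟩
  · intro c d hcd
    rw [Function.onFun, Set.disjoint_left]
    intro v h1 h2
    exact hcd (eq_of_bounds (X_bound h1) (X_bound h2))
  · intro c d hcd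
    rw [Function.onFun, Set.disjoint_left]
    intro v h1 h2
    exact hcd (eq_of_bounds (Y_bound h1) (Y_bound h2))
  · intro c d
    rw [Set.disjoint_left]
    intro v h1 h2
    have := eq_of_bounds (X_bound h1) (Y_bound h2)
    subst this
    obtain ⟨h3, h4⟩ := h2
    rcases h1 with h1 | h1
    · exact h3 h1
    · nlinarith [sq_nonneg (dev c v)]
  · rintro c _ ⟨v, hv, rfl⟩
    change dev c (g c • v) = 0 ∨ 2 * dev c (g c • v) ^ 2 < (g c • v).1.2 * dev c (g c • v)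
    rw [dev_g, snd_g]
    by_cases h0 : dev c v = 0
    · exact Or.inl h0
    · right
      have h1 : ¬ (v.1.2 * dev c v ≤ - 2 * dev c v ^ 2) := fun h => hv ⟨h0, h⟩
      push Not at h1
      nlinarith
  · rintro c _ ⟨v, hv, rfl⟩
    change dev c ((g c)⁻¹ • v) ≠ 0 ∧
      ((g c)⁻¹ • v).1.2 * dev c ((g c)⁻¹ • v) ≤ - 2 * dev c ((g c)⁻¹ • v) ^ 2
    rw [dev_g_inv, snd_g_inv]
    have h0 : dev c v ≠ 0 := fun h => hv (Or.inl h)
    refine ⟨h0, ?_⟩
    have h1 : ¬ (2 * dev c v ^ 2 < v.1.2 * dev c v) := fun h => hv (Or.inr h)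
    push Not at h1
    nlinarith

/-- Every matrix in the image is congruent to the identity modulo two. -/
lemma φ_mod_two (κ : FreeGroup ℤ) :
    ∃ A : Matrix (Fin 2) (Fin 2) ℤ, (φ κ : Matrix (Fin 2) (Fin 2) ℤ) = 1 + 2 • A := by
  induction κ using FreeGroup.induction_on with
  | C1 => exact ⟨0, by simp⟩
  | of c =>
    refine ⟨!![2 * c, -2 * c ^ 2; 2, -2 * c], ?_⟩
    have : φ (FreeGroup.of c) = g c := by simp [φ]
    rw [this]
    ext i j
    fin_cases i <;> fin_cases j <;> simp [g] <;> ring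
  | inv_of c _ =>
    refine ⟨!![-2 * c, 2 * c ^ 2; -2, 2 * c], ?_⟩
    have : φ (FreeGroup.of c)⁻¹ = (g c)⁻¹ := by simp [φ]
    rw [this, Matrix.SpecialLinearGroup.coe_inv, Matrix.adjugate_fin_two]
    ext i j
    fin_cases i <;> fin_cases j <;> simp [g] <;> ring
  | mul x y hx hy =>
    obtain ⟨A, hA⟩ := hx
    obtain ⟨B, hB⟩ := hy
    refine ⟨A + B + 2 • (A * B), ?_⟩
    rw [map_mul, Matrix.SpecialLinearGroup.coe_mul, hA, hB]
    noncomm_ring

lemma pow_two_pow (A : Matrix (Fin 2) (Fin 2) ℤ) (j : ℕ) :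
    ∃ B : Matrix (Fin 2) (Fin 2) ℤ, (1 + 2 • A) ^ (2 ^ j) = 1 + (2 ^ (j + 1) : ℤ) • B := by
  induction j with
  | zero => exact ⟨A, by simp⟩
  | succ j ih =>
    obtain ⟨B, hB⟩ := ih
    refine ⟨B + (2 ^ j : ℤ) • (B * B), ?_⟩
    rw [pow_succ 2 j, pow_mul, hB, pow_two]
    have e1 : (2 : ℤ) ^ (j + 1) * 2 ^ (j + 1) = 2 ^ (j + 1 + 1) * 2 ^ j := by ring
    have e2 : (2 : ℤ) ^ (j + 1 + 1) = 2 ^ (j + 1) + 2 ^ (j + 1) := by ring
    have e3 : (1 + (2 ^ (j + 1) : ℤ) • B) * (1 + (2 ^ (j + 1) : ℤ) • B) =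
        1 + ((2 : ℤ) ^ (j + 1) + 2 ^ (j + 1)) • B + ((2 : ℤ) ^ (j + 1) * 2 ^ (j + 1)) • (B * B) := by
      rw [add_mul, mul_add, mul_add, one_mul, one_mul, mul_one, smul_mul_smul_comm, add_smul]
      abel
    rw [e3, e1, ← e2, smul_add, mul_smul]
    abel

/-- Reduction modulo `2 ^ k`. -/
def red (k : ℕ) : G →* Matrix.SpecialLinearGroup (Fin 2) (ZMod (2 ^ k)) :=
  Matrix.SpecialLinearGroup.map (Int.castRingHom (ZMod (2 ^ k)))

lemma red_apply (k : ℕ) (m : G) (i j : Fin 2) : red k m i j = ((m i j : ℤ) : ZMod (2 ^ k)) := rfl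

lemma isPGroup_range (k : ℕ) : IsPGroup 2 ((red k).comp φ).range := by
  rintro ⟨_, κ, rfl⟩
  refine ⟨k, ?_⟩
  apply Subtype.ext
  rw [Subgroup.coe_pow, ← map_pow]
  change red k (φ (κ ^ 2 ^ k)) = 1
  obtain ⟨A, hA⟩ := φ_mod_two κ
  obtain ⟨B, hB⟩ := pow_two_pow A k
  have hM : (φ (κ ^ 2 ^ k) : Matrix (Fin 2) (Fin 2) ℤ) = 1 + (2 ^ (k + 1) : ℤ) • B := by
    rw [map_pow, Matrix.SpecialLinearGroup.coe_pow, hA, hB]
  have h2 : (2 : ZMod (2 ^ k)) ^ (k + 1) = 0 := by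
    have : ((2 ^ k : ℕ) : ZMod (2 ^ k)) = 0 := ZMod.natCast_self _
    push_cast at this
    rw [pow_succ, this, zero_mul]
  ext i j
  rw [red_apply, hM]
  simp only [Matrix.add_apply, Matrix.smul_apply, smul_eq_mul]
  push_cast
  rw [h2, zero_mul, add_zero]
  fin_cases i <;> fin_cases j <;> simp

/-- Free groups on the integers are residually finite 2-groups. -/
theorem exists_two_group (κ : FreeGroup ℤ) (h : κ ≠ 1) :
    ∃ (H : Type) (_ : Group H) (_ : Finite H), IsPGroup 2 H ∧ ∃ θ : FreeGroup ℤ →* H, θ κ ≠ 1 := by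
  have h1 : φ κ ≠ 1 := fun hh => h (φ_injective (by rw [hh, map_one]))
  have h2 : ∃ i j, (φ κ) i j ≠ (1 : G) i j := by
    by_contra hc
    push Not at hc
    exact h1 (by ext i j; exact hc i j)
  obtain ⟨i, j, hij⟩ := h2
  obtain ⟨k, hk⟩ : ∃ k : ℕ, ((φ κ) i j - (1 : G) i j).natAbs < 2 ^ k :=
    ⟨_, Nat.lt_two_pow_self⟩
  refine ⟨((red k).comp φ).range, inferInstance, inferInstance, isPGroup_range k,
    ((red k).comp φ).rangeRestrict, ?_⟩
  intro hc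
  have h3 : red k (φ κ) = 1 := congrArg Subtype.val hc
  have h4 : red k (φ κ) i j = red k 1 i j := by rw [h3, map_one]
  rw [red_apply, red_apply, ← sub_eq_zero, ← Int.cast_sub, ZMod.intCast_zmod_eq_zero_iff_dvd] at h4
  have h5 := Int.natAbs_dvd_natAbs.2 h4
  have h6 := Nat.le_of_dvd (Int.natAbs_pos.2 (sub_ne_zero.2 hij)) h5
  have h7 : (((2 ^ k : ℕ) : ℤ)).natAbs = 2 ^ k := Int.natAbs_natCast _
  rw [h7] at h6
  exact absurd hk (not_lt.2 h6)

end Pool.Agent.Parafree
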