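import Mathlib
import Pool.Agent.Parafree.Residual2
import Pool.Agent.Parafree.Group

set_option autoImplicit false

/-!
Every nontrivial element of `P` is detected in a nilpotent quotient.
-/

namespace Pool.Agent.Parafree

open FreeGroup (of)
open SemidirectProduct

/-- An injective encoding of the letters by integers. -/
def code : Letter → ℤ
  | .X k => 3 * k
  | .U k => 3 * k + 1
  | .B => 2

instance : Nonempty Letter := ⟨.B⟩

lemma code_injective : Function.Injective code := by
  intro l l' h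
  rcases l with k | k | _ <;> rcases l' with k' | k' | _ <;> simp only [code] at h <;>
    first
    | rfl
    | (congr 1; omega)

/-- The index of a letter. -/
def idx : Letter → ℕ
  | .X k => k.natAbs
  | .U k => k.natAbs
  | .B => 0

/-- Folding the letters modulo `m`. -/
def fold (m : ℕ) : Letter → Letter
  | .X k => .X ((k : ZMod m).valMinAbs)
  | .U k => .U ((k : ZMod m).valMinAbs)
  | .B => .B

lemma fold_eq (m : ℕ) [NeZero m] (l : Letter) (h : 2 * idx l < m) : fold m l = l := by
  have key : ∀ k : ℤ, 2 * k.natAbs < m → ((k : ZMod m)).valMinAbs = k := by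
    intro k hk
    rw [ZMod.valMinAbs_spec]
    refine ⟨rfl, ?_, ?_⟩ <;> omega
  rcases l with k | k | _
  · simp only [fold, key k h]
  · simp only [fold, key k h]
  · rfl

lemma exists_two_group_K (κ : K) (h : κ ≠ 1) :
    ∃ (H : Type) (_ : Group H) (_ : Finite H), IsPGroup 2 H ∧ ∃ θ : K →* H, θ κ ≠ 1 := by
  have : FreeGroup.map code κ ≠ 1 := by
    intro hc
    have h1 : FreeGroup.map (Function.invFun code) (FreeGroup.map code κ) = κ := by
      rw [FreeGroup.map.comp, (Function.leftInverse_invFun code_injective).comp_eq_id]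
      simp
    rw [hc, map_one] at h1
    exact h h1.symm
  obtain ⟨H, i1, i2, i3, θ, hθ⟩ := exists_two_group _ this
  exact ⟨H, i1, i2, i3, θ.comp (FreeGroup.map code), hθ⟩

/-- Every nontrivial element of `K` is detected by a finite 2-group, with periodic values on the
letters. -/
lemma exists_periodic (κ : K) (h : κ ≠ 1) :
    ∃ (H : Type) (_ : Group H) (_ : Finite H) (j : ℕ) (x u : ZMod (2 ^ j) → H) (b : H),
      IsPGroup 2 H ∧ (FreeGroup.lift fun l => match l with
        | .X k => x k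
        | .U k => u k
        | .B => b) κ ≠ 1 := by
  classical
  obtain ⟨H, i1, i2, i3, θ, hθ⟩ := exists_two_group_K κ h
  obtain ⟨j, hj⟩ : ∃ j : ℕ, 2 * (κ.toWord.map fun l => idx l.1).sum < 2 ^ j :=
    ⟨_, Nat.lt_two_pow_self⟩
  refine ⟨H, i1, i2, j, fun i => θ (of (.X i.valMinAbs)), fun i => θ (of (.U i.valMinAbs)),
    θ (of .B), i3, ?_⟩
  have h1 : (FreeGroup.lift fun l : Letter => (match l with
        | .X k => θ (of (.X ((k : ZMod (2 ^ j)).valMinAbs)))
        | .U k => θ (of (.U ((k : ZMod (2 ^ j)).valMinAbs)))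
        | .B => θ (of .B) : H)) = θ.comp (FreeGroup.map (fold (2 ^ j))) := by
    ext l
    rcases l with k | k | _ <;> simp [fold]
  rw [h1, MonoidHom.comp_apply]
  have h2 : FreeGroup.map (fold (2 ^ j)) κ = κ := by
    conv_lhs => rw [← FreeGroup.mk_toWord (x := κ)]
    conv_rhs => rw [← FreeGroup.mk_toWord (x := κ)]
    rw [FreeGroup.map.mk]
    congr 1
    conv_rhs => rw [← List.map_id κ.toWord]
    apply List.map_congr_left
    rintro ⟨l, c⟩ hl
    have h3 : idx l ≤ (κ.toWord.map fun l => idx l.1).sum :=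
      List.le_sum_of_mem (List.mem_map.2 ⟨(l, c), hl, rfl⟩)
    simp only [id_eq, Prod.mk.injEq, and_true]
    exact fold_eq _ l (by omega)
  rw [h2]
  exact hθ

section Wreath

variable {H : Type} [Group H] {j : ℕ} (x u : ZMod (2 ^ j) → H) (b : H)

/-- The product of consecutive values of `r`. -/
def prodR (i : ℕ) : ℕ → H
  | 0 => 1
  | n + 1 => r (x ((i + n : ℕ) : ZMod (2 ^ j))) (u ((i + n : ℕ) : ZMod (2 ^ j))) * prodR i n

lemma prodR_add (i : ℕ) (n : ℕ) : prodR x u (i + 2 ^ j) n = prodR x u i n := by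
  induction n with
  | zero => rfl
  | succ n ih =>
    have : ((i + 2 ^ j + n : ℕ) : ZMod (2 ^ j)) = ((i + n : ℕ) : ZMod (2 ^ j)) := by
      rw [add_right_comm, Nat.cast_add (i + n), ZMod.natCast_self, add_zero]
    rw [prodR, prodR, ih, this]

lemma prodR_add_mul (i q : ℕ) (n : ℕ) : prodR x u (i + 2 ^ j * q) n = prodR x u i n := by
  induction q with
  | zero => rfl
  | succ q ih => rw [mul_add, mul_one, ← add_assoc, prodR_add, ih]

/-- The sequence of values of the letter `b`. -/
def seqB (n : ℕ) : H := prodR x u 0 n * b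

lemma seqB_add (i n : ℕ) : seqB x u b (i + n) = prodR x u i n * seqB x u b i := by
  induction n with
  | zero => simp [prodR]
  | succ n ih =>
    rw [← add_assoc, seqB, prodR, zero_add, mul_assoc, prodR, mul_assoc, ← ih]
    rfl

lemma seqB_period (i q : ℕ) :
    seqB x u b (i + 2 ^ j * q) = prodR x u i (2 ^ j) ^ q * seqB x u b i := by
  induction q with
  | zero => simp
  | succ q ih =>
    rw [mul_add, mul_one, ← add_assoc, seqB_add, prodR_add_mul, ih, pow_succ', mul_assoc]

/-- The wreath product of `H` with a cyclic group. -/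
abbrev Wr (N : ℕ) (H : Type) [Group H] :=
  (ZMod N → H) ⋊[mulAutArrow] Multiplicative (ZMod N)

lemma wr_isNilpotent (s : ℕ) [Finite H] (hH : IsPGroup 2 H) :
    Group.IsNilpotent (Wr (2 ^ s) H) := by
  have : Fact (Nat.Prime 2) := ⟨Nat.prime_two⟩
  obtain ⟨t, ht⟩ := IsPGroup.iff_card.1 hH
  have e := SemidirectProduct.equivProd (φ := mulAutArrow (G := Multiplicative (ZMod (2 ^ s)))
    (A := ZMod (2 ^ s)) (M := H))
  have hfin : Finite (Wr (2 ^ s) H) := Finite.of_equiv _ e.symm
  have hcard : Nat.card (Wr (2 ^ s) H) = 2 ^ (t * 2 ^ s + s) := by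
    rw [Nat.card_congr e, Nat.card_prod, Nat.card_fun, ht, Nat.card_zmod,
      Nat.card_congr Multiplicative.toAdd, Nat.card_zmod, ← pow_mul, pow_add]
  exact (IsPGroup.of_card hcard).isNilpotent

/-- The generator of the cyclic group. -/
def wa (N : ℕ) (H : Type) [Group H] : Wr N H := inr (Multiplicative.ofAdd (-1))

lemma wa_conj (N : ℕ) (k : ℤ) (F : ZMod N → H) :
    (wa N H) ^ k * inl F * ((wa N H) ^ k)⁻¹ = inl (fun i => F (i + k)) := by
  have h := inl_aut (φ := mulAutArrow (G := Multiplicative (ZMod N)) (A := ZMod N) (M := H))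
    ((Multiplicative.ofAdd (-1)) ^ k) F
  rw [wa, ← map_zpow, ← map_inv, ← h]
  congr 1
  ext i
  change F (((Multiplicative.ofAdd (-1 : ZMod N)) ^ k)⁻¹ • i) = _
  congr 1
  rw [← ofAdd_zsmul, ← ofAdd_neg]
  change -(k • (-1 : ZMod N)) + i = i + k
  simp [add_comm]

/-- The function on `ZMod (2 ^ (j + s))` induced by a function on `ZMod (2 ^ j)`. -/
def infl (s : ℕ) (y : ZMod (2 ^ j) → H) : ZMod (2 ^ (j + s)) → H :=
  fun i => y ((i.val : ℕ) : ZMod (2 ^ j))

lemma val_intCast (s : ℕ) (k : ℤ) :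
    ((((k : ZMod (2 ^ (j + s))).val : ℕ)) : ZMod (2 ^ j)) = (k : ZMod (2 ^ j)) := by
  have h1 : (2 ^ j : ℕ) ∣ 2 ^ (j + s) := pow_dvd_pow 2 (Nat.le_add_right j s)
  have h2 : ((ZMod.castHom h1 (ZMod (2 ^ j))) (k : ZMod (2 ^ (j + s)))) = (k : ZMod (2 ^ j)) := by
    rw [map_intCast]
  rw [← h2, ZMod.castHom_apply, ZMod.natCast_val]

/-- The value of `b` in the wreath product. -/
def wb (s : ℕ) : ZMod (2 ^ (j + s)) → H := fun i => seqB x u b i.val

lemma wb_succ (s : ℕ) (hs : ∀ h : H, h ^ (2 ^ s) = 1) (i : ZMod (2 ^ (j + s))) :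
    wb x u b s (i + 1) = r (infl s x i) (infl s u i) * wb x u b s i := by
  have hper : ∀ n : ℕ, seqB x u b (n + 2 ^ (j + s)) = seqB x u b n := by
    intro n
    rw [pow_add, seqB_period, hs, one_mul]
  have hval : (i + 1).val = (i.val + 1) % 2 ^ (j + s) := by
    rw [ZMod.val_add, ZMod.val_one_eq_one_mod, Nat.add_mod_mod]
  have hmod : ∀ n : ℕ, seqB x u b (n % 2 ^ (j + s)) = seqB x u b n := fun n =>
    Function.Periodic.map_mod_nat (f := seqB x u b) hper n
  rw [wb, wb, hval, hmod, seqB_add]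
  simp [prodR, infl]

/-- The elements `infl x`, `infl u`, `wa`, `wb` of the wreath product satisfy the relation. -/
lemma wr_relation (s : ℕ) (hs : ∀ h : H, h ^ (2 ^ s) = 1) :
    r (inl (infl s x) : Wr (2 ^ (j + s)) H) (inl (infl s u)) =
      wa (2 ^ (j + s)) H * inl (wb x u b s) * (wa (2 ^ (j + s)) H)⁻¹ * (inl (wb x u b s))⁻¹ := by
  have h := wa_conj (2 ^ (j + s)) 1 (wb x u b s)
  rw [zpow_one] at h
  rw [h, ← map_inv, ← map_mul, ← map_r]
  congr 1
  ext i
  have h1 := wb_succ x u b s hs i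
  simp only [Int.cast_one, Pi.mul_apply, Pi.inv_apply]
  rw [h1, mul_inv_cancel_right]
  rfl

end Wreath

/-- Every nontrivial element of `K` is detected in a nilpotent quotient of `P`. -/
lemma detect_inl (κ : K) (h : κ ≠ 1) :
    ∃ (H : Type) (_ : Group H) (_ : Group.IsNilpotent H) (f : P →* H), f (inl κ) ≠ 1 := by
  obtain ⟨H, i1, i2, j, x, u, b, hH, hκ⟩ := exists_periodic κ h
  have : Fact (Nat.Prime 2) := ⟨Nat.prime_two⟩
  obtain ⟨s, hs⟩ := IsPGroup.iff_card.1 hH
  have hs' : ∀ h : H, h ^ (2 ^ s) = 1 := by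
    intro h
    rw [← hs]
    exact pow_card_eq_one'
  refine ⟨Wr (2 ^ (j + s)) H, inferInstance, wr_isNilpotent (j + s) hH,
    lift (wr_relation x u b s hs'), ?_⟩
  rw [lift_inl]
  -- the restriction to `K`
  let ψ : K →* (ZMod (2 ^ (j + s)) → H) := FreeGroup.lift fun l => match l with
    | .X k => fun i => infl s x (i + k)
    | .U k => fun i => infl s u (i + k)
    | .B => wb x u b s
  have h1 : liftK (inl (infl s x) : Wr (2 ^ (j + s)) H) (inl (infl s u)) (wa (2 ^ (j + s)) H)
      (inl (wb x u b s)) = (inl : _ →* Wr (2 ^ (j + s)) H).comp ψ := by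
    ext1 l
    rcases l with k | k | _
    · rw [liftK_X, wa_conj, MonoidHom.comp_apply]
      simp [ψ]
    · rw [liftK_U, wa_conj, MonoidHom.comp_apply]
      simp [ψ]
    · rw [liftK_B, MonoidHom.comp_apply]
      simp [ψ]
  have h2 : (Pi.evalMonoidHom (fun _ => H) (0 : ZMod (2 ^ (j + s)))).comp ψ =
      FreeGroup.lift fun l : Letter => (match l with
        | .X k => x k
        | .U k => u k
        | .B => b : H) := by
    ext l
    rcases l with k | k | _
    · simp only [MonoidHom.comp_apply, ψ, FreeGroup.lift_apply_of, Pi.evalMonoidHom_apply, zero_add]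
      rw [infl, val_intCast]
    · simp only [MonoidHom.comp_apply, ψ, FreeGroup.lift_apply_of, Pi.evalMonoidHom_apply, zero_add]
      rw [infl, val_intCast]
    · simp only [MonoidHom.comp_apply, ψ, FreeGroup.lift_apply_of, Pi.evalMonoidHom_apply]
      rw [wb, ZMod.val_zero, seqB, prodR, one_mul]
  rw [h1, MonoidHom.comp_apply]
  intro hc
  apply hκ
  rw [← h2, MonoidHom.comp_apply]
  have h3 : ψ κ = 1 := by
    apply inl_injective (φ := mulAutArrow (G := Multiplicative (ZMod (2 ^ (j + s))))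
      (A := ZMod (2 ^ (j + s))) (M := H))
    rw [hc, map_one]
  rw [h3, map_one]

/-- `P` is residually nilpotent. -/
theorem detect (p : P) (h : p ≠ 1) :
    ∃ (H : Type) (_ : Group H) (_ : Group.IsNilpotent H) (f : P →* H), f p ≠ 1 := by
  by_cases hr : p.right = 1
  · have hp : p = inl p.left := by
      ext
      · rfl
      · exact hr
    rw [hp]
    refine detect_inl p.left fun hl => h ?_
    rw [hp, hl, map_one]
  · exact ⟨Multiplicative ℤ, inferInstance, inferInstance, rightHom, hr⟩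

theorem iInf_lowerCentralSeries : ⨅ n, (⊤ : Subgroup P).lowerCentralSeries n = ⊥ := by
  rw [eq_bot_iff]
  intro p hp
  rw [Subgroup.mem_bot]
  by_contra h
  obtain ⟨H, i1, i2, f, hf⟩ := detect p h
  obtain ⟨n, hn⟩ := Subgroup.nilpotent_iff_lowerCentralSeries.1 i2
  rw [Subgroup.mem_iInf] at hp
  apply hf
  have h1 : f p ∈ ((⊤ : Subgroup P).lowerCentralSeries n).map f := ⟨p, hp n, rfl⟩
  rw [Subgroup.map_lowerCentralSeries] at h1
  have h2 : (((⊤ : Subgroup P).map f).lowerCentralSeries n) ≤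
      (⊤ : Subgroup H).lowerCentralSeries n := Subgroup.lowerCentralSeries_mono n le_top
  have h3 := h2 h1
  rw [hn, Subgroup.mem_bot] at h3
  exact h3

end Pool.Agent.Parafree
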