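import Mathlib
import Pool.Agent.Parafree.Group

set_option autoImplicit false

/-!
The quotients of `P` by the terms of its lower central series are those of the free group of
rank three.
-/

namespace Pool.Agent.Parafree

open FreeGroup (of)
open SemidirectProduct

section Solve

/-- In a nilpotent group the map `u ↦ r x u` is bijective. -/
theorem r_bijective (Q : Type) [Group Q] [Group.IsNilpotent Q] :
    ∀ x : Q, Function.Bijective (r x) := by
  refine Group.nilpotent_center_quotient_ind
    (P := fun Q _ _ => ∀ x : Q, Function.Bijective (r x)) Q ?_ ?_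
  · intro Q _ _ x
    exact ⟨Function.injective_of_subsingleton _, fun y => ⟨1, Subsingleton.elim _ _⟩⟩
  · intro Q _ _ ih x
    have key : ∀ u z : Q, z ∈ Subgroup.center Q → r x (u * z) = r x u * z := by
      intro u z hz
      have hc : ∀ g : Q, g * z = z * g := fun g => Subgroup.mem_center_iff.1 hz g
      have h1 : ∀ w : Q, z * (x⁻¹ * (z⁻¹ * w)) = x⁻¹ * w := by
        intro w
        rw [← mul_assoc, ← hc, mul_assoc, mul_inv_cancel_left]
      have h2 : r x (u * z) = u * (z * (x * (x * (u * (x⁻¹ * (u⁻¹ * x⁻¹)))))) := by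
        simp only [r, mul_inv_rev, mul_assoc]
        rw [h1]
      rw [h2, ← hc]
      simp only [r, mul_assoc]
    constructor
    · intro u u' h
      have h1 : r (x : Q ⧸ Subgroup.center Q) u = r (x : Q ⧸ Subgroup.center Q) u' := by
        have := congrArg (QuotientGroup.mk' (Subgroup.center Q)) h
        rwa [map_r, map_r] at this
      have h2 := (ih x).1 h1
      have h3 : u⁻¹ * u' ∈ Subgroup.center Q := QuotientGroup.eq.1 h2
      have h4 := key u (u⁻¹ * u') h3
      rw [mul_inv_cancel_left, ← h] at h4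
      have h5 : u⁻¹ * u' = 1 := by
        rwa [left_eq_mul] at h4
      rw [inv_mul_eq_one] at h5
      exact h5
    · intro c
      obtain ⟨w, hw⟩ := (ih x).2 (c : Q ⧸ Subgroup.center Q)
      obtain ⟨u, rfl⟩ := QuotientGroup.mk_surjective w
      have h1 : ((r x u : Q) : Q ⧸ Subgroup.center Q) = c := by
        have := map_r (QuotientGroup.mk' (Subgroup.center Q)) x u
        exact this.trans hw
      have h2 : (r x u)⁻¹ * c ∈ Subgroup.center Q := QuotientGroup.eq.1 h1
      refine ⟨u * ((r x u)⁻¹ * c), ?_⟩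
      rw [key _ _ h2, mul_inv_cancel_left]

end Solve

/-- Generators of the free group of rank three. -/
abbrev F := FreeGroup (Fin 3)

/-- The homomorphism from the free group of rank three to `P`. -/
def ι : F →* P := FreeGroup.lift ![px, pa, pb]

@[simp] lemma ι_0 : ι (of 0) = px := by simp [ι]
@[simp] lemma ι_1 : ι (of 1) = pa := by simp [ι]
@[simp] lemma ι_2 : ι (of 2) = pb := by simp [ι]

/-- Terms of the lower central series. -/
abbrev lcs (G : Type) [Group G] (n : ℕ) : Subgroup G := (⊤ : Subgroup G).lowerCentralSeries n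

lemma map_mem_lcs {G H : Type} [Group G] [Group H] (f : G →* H) (n : ℕ) {g : G}
    (hg : g ∈ lcs G n) : f g ∈ lcs H n := by
  have h1 : f g ∈ (lcs G n).map f := ⟨g, hg, rfl⟩
  rw [Subgroup.map_lowerCentralSeries] at h1
  exact Subgroup.lowerCentralSeries_mono n le_top h1

lemma lcs_quotient (G : Type) [Group G] (n : ℕ) : lcs (G ⧸ lcs G n) n = ⊥ := by
  have h : (lcs G n).map (QuotientGroup.mk' (lcs G n)) = lcs (G ⧸ lcs G n) n := by
    rw [Subgroup.map_lowerCentralSeries, Subgroup.map_top_of_surjective _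
      (QuotientGroup.mk'_surjective _)]
  rw [← h, QuotientGroup.map_mk'_self]

instance (G : Type) [Group G] (n : ℕ) : Group.IsNilpotent (G ⧸ lcs G n) :=
  Subgroup.nilpotent_iff_lowerCentralSeries.2 ⟨n, lcs_quotient G n⟩

/-- The solution of the relation in the quotients of the free group. -/
noncomputable def sol (n : ℕ) : F ⧸ lcs F n :=
  ((r_bijective (F ⧸ lcs F n) ((of 0 : F) : F ⧸ lcs F n)).2
    ((of 1 : F) * (of 2 : F) * (of 1 : F)⁻¹ * (of 2 : F)⁻¹ : F)).choose

lemma sol_spec (n : ℕ) : r ((of 0 : F) : F ⧸ lcs F n) (sol n) =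
    ((of 1 : F) : F ⧸ lcs F n) * ((of 2 : F) : F ⧸ lcs F n) * ((of 1 : F) : F ⧸ lcs F n)⁻¹ *
      ((of 2 : F) : F ⧸ lcs F n)⁻¹ :=
  ((r_bijective (F ⧸ lcs F n) ((of 0 : F) : F ⧸ lcs F n)).2
    ((of 1 : F) * (of 2 : F) * (of 1 : F)⁻¹ * (of 2 : F)⁻¹ : F)).choose_spec

/-- The homomorphism from `P` to a nilpotent quotient of the free group. -/
noncomputable def toF (n : ℕ) : P →* F ⧸ lcs F n := lift (sol_spec n)

/-- The induced homomorphism from `P / γ` to `F / γ`. -/
noncomputable def toFq (n : ℕ) : P ⧸ lcs P n →* F ⧸ lcs F n :=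
  QuotientGroup.lift (lcs P n) (toF n) (by
    intro p hp
    have h := map_mem_lcs (toF n) n hp
    rwa [lcs_quotient, Subgroup.mem_bot] at h)

/-- The induced homomorphism from `F / γ` to `P / γ`. -/
noncomputable def toPq (n : ℕ) : F ⧸ lcs F n →* P ⧸ lcs P n :=
  QuotientGroup.map (lcs F n) (lcs P n) ι (fun _ hp => map_mem_lcs ι n hp)

lemma toFq_mk (n : ℕ) (p : P) : toFq n (p : P ⧸ lcs P n) = toF n p := rfl
lemma toPq_mk (n : ℕ) (p : F) : toPq n (p : F ⧸ lcs F n) = (ι p : P ⧸ lcs P n) := rfl

/-- The isomorphism between the quotients. -/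
noncomputable def equivQ (n : ℕ) : (P ⧸ lcs P n) ≃* (F ⧸ lcs F n) :=
  MonoidHom.toMulEquiv (toFq n) (toPq n)
    (by
      apply QuotientGroup.monoidHom_ext
      apply hom_ext
      · change toPq n (toF n px) = (px : P ⧸ lcs P n)
        rw [toF, lift_px, toPq_mk, ι_0]
      · change toPq n (toF n pu) = (pu : P ⧸ lcs P n)
        rw [toF, lift_pu]
        apply (r_bijective (P ⧸ lcs P n) (px : P ⧸ lcs P n)).1
        have h1 : r (px : P ⧸ lcs P n) (toPq n (sol n)) = toPq n (r (of 0 : F) (sol n)) := by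
          rw [map_r, toPq_mk, ι_0]
        rw [h1, sol_spec, map_mul, map_mul, map_mul, map_inv, map_inv, toPq_mk, toPq_mk, ι_1, ι_2]
        have h2 := congrArg (QuotientGroup.mk' (lcs P n)) relation
        rw [map_r, map_mul, map_mul, map_mul, map_inv, map_inv] at h2
        exact h2.symm
      · change toPq n (toF n pa) = (pa : P ⧸ lcs P n)
        rw [toF, lift_pa, toPq_mk, ι_1]
      · change toPq n (toF n pb) = (pb : P ⧸ lcs P n)
        rw [toF, lift_pb, toPq_mk, ι_2])
    (by
      apply QuotientGroup.monoidHom_ext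
      ext i
      fin_cases i
      · change toFq n (toPq n ((of 0 : F) : F ⧸ lcs F n)) = ((of 0 : F) : F ⧸ lcs F n)
        rw [toPq_mk, ι_0, toFq_mk, toF, lift_px]
      · change toFq n (toPq n ((of 1 : F) : F ⧸ lcs F n)) = ((of 1 : F) : F ⧸ lcs F n)
        rw [toPq_mk, ι_1, toFq_mk, toF, lift_pa]
      · change toFq n (toPq n ((of 2 : F) : F ⧸ lcs F n)) = ((of 2 : F) : F ⧸ lcs F n)
        rw [toPq_mk, ι_2, toFq_mk, toF, lift_pb])

end Pool.Agent.Parafree
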