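import Mathlib

set_option autoImplicit false

/-!
A criterion for the abelianization of a normal subgroup to be torsion-free.
-/

namespace Pool.Agent.Parafree

open SemidirectProduct

section General

variable {P : Type} [Group P] {𝓑 : Type} [CommGroup 𝓑] {S : Type} [Group S] {φ : S →* MulAut 𝓑}
  (Φ : P →* 𝓑 ⋊[φ] S)

/-- The kernel of the projection. -/
def Nk : Subgroup P := (rightHom.comp Φ).ker

instance : (Nk Φ).Normal := MonoidHom.normal_ker _

lemma mem_Nk {n : P} : n ∈ Nk Φ ↔ (Φ n).right = 1 := Iff.rfl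

/-- The homomorphism to the base group. -/
def Θ : Nk Φ →* 𝓑 where
  toFun n := (Φ n).left
  map_one' := by simp
  map_mul' n m := by
    have h : (Φ n).right = 1 := n.2
    simp [h]

lemma Φ_eq (n : Nk Φ) : Φ n = inl (Θ Φ n) := by
  ext
  · rfl
  · exact n.2

/-- Conjugate of an element of the kernel. -/
def cj (q : P) (n : Nk Φ) : Nk Φ := ⟨q * n * q⁻¹, Subgroup.Normal.conj_mem inferInstance _ n.2 q⟩

lemma Θ_cj (q : P) (n : Nk Φ) : Θ Φ (cj Φ q n) = φ (Φ q).right (Θ Φ n) := by
  apply inl_injective (φ := φ)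
  rw [← Φ_eq, cj]
  simp only [map_mul, map_inv]
  rw [Φ_eq]
  have h : Φ q = inl (Φ q).left * inr (Φ q).right := (inl_left_mul_inr_right _).symm
  rw [inl_aut]
  conv_lhs => rw [h]
  have h2 : inr (Φ q).right * inl (Θ Φ n) * (inr (Φ q).right)⁻¹ =
      (inl (φ (Φ q).right (Θ Φ n)) : 𝓑 ⋊[φ] S) := by rw [inl_aut, map_inv]
  calc inl (Φ q).left * inr (Φ q).right * inl (Θ Φ n) * (inl (Φ q).left * inr (Φ q).right)⁻¹
      = inl (Φ q).left * (inr (Φ q).right * inl (Θ Φ n) * (inr (Φ q).right)⁻¹) *
        (inl (Φ q).left)⁻¹ := by group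
    _ = _ := by
      rw [h2, ← map_mul, ← map_inv, ← map_mul, mul_comm (Φ q).left, mul_inv_cancel_right, inl_aut]

/-- The class of a conjugate only depends on the image of the conjugating element. -/
lemma of_cj (q q' : P) (n : Nk Φ) (h : (Φ q).right = (Φ q').right) :
    Abelianization.of (cj Φ q n) = Abelianization.of (cj Φ q' n) := by
  have hm : q * q'⁻¹ ∈ Nk Φ := by
    rw [mem_Nk, map_mul, map_inv, mul_right, inv_right, h, mul_inv_cancel]
  have : cj Φ q n = ⟨q * q'⁻¹, hm⟩ * cj Φ q' n * (⟨q * q'⁻¹, hm⟩ : Nk Φ)⁻¹ := by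
    apply Subtype.ext
    simp only [cj, Subgroup.coe_mul, Subgroup.coe_inv]
    group
  rw [this, map_mul, map_mul, map_inv, mul_comm (Abelianization.of _), mul_inv_cancel_right]

variable {Φ}

/-- The criterion. -/
theorem torsionFree {I : Type} (e : I → Nk Φ)
    (hgen : ∀ n : Nk Φ, Abelianization.of n ∈ Subgroup.closure
      (Set.range fun i => Abelianization.of (e i)))
    (hli : LinearIndependent ℤ (fun i => Additive.ofMul (Θ Φ (e i)))) :
    ∀ x : Abelianization (Nk Φ), IsOfFinOrder x → x = 1 := by
  set v : I → Additive (Abelianization (Nk Φ)) := fun i => Additive.ofMul (Abelianization.of (e i))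
    with hv
  let f : Additive (Abelianization (Nk Φ)) →+ Additive 𝓑 :=
    MonoidHom.toAdditive (Abelianization.lift (Θ Φ))
  have hfv : (fun i => f.toIntLinearMap (v i)) = fun i => Additive.ofMul (Θ Φ (e i)) := by
    ext i
    simp [f, hv]
  have hliv : LinearIndependent ℤ v := by
    apply LinearIndependent.of_comp f.toIntLinearMap
    change LinearIndependent ℤ (fun i => f.toIntLinearMap (v i))
    rw [hfv]
    exact hli
  have hspan : ⊤ ≤ Submodule.span ℤ (Set.range v) := by
    intro y _
    obtain ⟨n, hn⟩ := QuotientGroup.mk_surjective (Additive.toMul y)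
    have h1 := hgen n
    have key : ∀ z : Abelianization (Nk Φ), z ∈ Subgroup.closure
        (Set.range fun i => Abelianization.of (e i)) →
        Additive.ofMul z ∈ Submodule.span ℤ (Set.range v) := by
      intro z hz
      induction hz using Subgroup.closure_induction with
      | mem z hz =>
        obtain ⟨i, rfl⟩ := hz
        exact Submodule.subset_span ⟨i, rfl⟩
      | one => exact Submodule.zero_mem _
      | mul z w _ _ h1 h2 => exact Submodule.add_mem _ h1 h2
      | inv z _ h1 => exact Submodule.neg_mem _ h1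
    have h2 := key _ h1
    have h3 : Additive.ofMul (Abelianization.of n) = y := by
      have : Abelianization.of n = Additive.toMul y := hn
      rw [this]
      rfl
    rwa [h3] at h2
  let b := Module.Basis.mk hliv hspan
  have hfree : Module.Free ℤ (Additive (Abelianization (Nk Φ))) := Module.Free.of_basis b
  intro x hx
  obtain ⟨n, hn, hxn⟩ := isOfFinOrder_iff_pow_eq_one.1 hx
  have h1 : (n : ℤ) • Additive.ofMul x = 0 := by
    rw [natCast_zsmul, ← ofMul_pow, hxn]
    rfl
  have h2 : (n : ℤ) ≠ 0 := by exact_mod_cast hn.ne'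
  have h3 : Additive.ofMul x = 0 := by
    rcases smul_eq_zero.1 h1 with h | h
    · exact absurd h h2
    · exact h
  exact h3

end General

end Pool.Agent.Parafree
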