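import Mathlib
import Pool.Agent.Parafree.Group
import Pool.Agent.Parafree.TorsionFree

set_option autoImplicit false

/-!
The normal subgroup of index six.
-/

namespace Pool.Agent.Parafree.One

open SemidirectProduct Pool.Agent.Parafree

/-- The symmetric group on three points. -/
abbrev S3 := Equiv.Perm (Fin 3)

/-- Index set of the permutation lattice. -/
abbrev I := S3 ⊕ S3 ⊕ Fin 3

/-- Extension of the symmetric group by the permutation lattice. -/
abbrev W := (I → Multiplicative ℤ) ⋊[mulAutArrow] S3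

/-- Basis vectors. -/
def δ (i : I) : I → Multiplicative ℤ := Pi.mulSingle i (Multiplicative.ofAdd 1)

/-- The point of the index set attached to `x`. -/
abbrev pt (k : Fin 3) : I := Sum.inr (Sum.inr k)

/-- image of `x` -/
def wx : W := ⟨δ (pt 2), Equiv.swap 0 1⟩
/-- image of `u` -/
def wu : W := ⟨δ (pt 1) * (δ (pt 2))⁻¹, Equiv.swap 0 1 * Equiv.swap 1 2⟩
/-- image of `a` -/
def wa : W := inl (δ (Sum.inl 1))
/-- image of `b` -/
def wb : W := inl (δ (Sum.inr (Sum.inl 1)))

lemma w_rel : r wx wu = wa * wb * wa⁻¹ * wb⁻¹ := by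
  have h1 : wa * wb * wa⁻¹ * wb⁻¹ = 1 := by
    rw [wa, wb, ← map_mul, mul_comm (δ _), map_mul, mul_inv_cancel_right, mul_inv_cancel]
  rw [h1]
  apply SemidirectProduct.ext
  · funext i
    rcases i with i | i | i
    · revert i; decide +kernel
    · revert i; decide +kernel
    · revert i; decide +kernel
  · decide +kernel

/-- The homomorphism from `P` to the crystallographic group. -/
def Φ : P →* W := lift w_rel

@[simp] lemma Φ_x : Φ px = wx := lift_px _
@[simp] lemma Φ_u : Φ pu = wu := lift_pu _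
@[simp] lemma Φ_a : Φ pa = wa := lift_pa _
@[simp] lemma Φ_b : Φ pb = wb := lift_pb _

/-- The normal subgroup. -/
abbrev N : Subgroup P := Nk Φ

lemma a_mem : pa ∈ N := by rw [mem_Nk, Φ_a]; rfl
lemma b_mem : pb ∈ N := by rw [mem_Nk, Φ_b]; rfl
lemma xx_mem : px * px ∈ N := by
  rw [mem_Nk, map_mul, Φ_x]
  decide +kernel

lemma u_not_mem : pu ∉ N := by
  rw [mem_Nk, Φ_u]
  decide +kernel

lemma comm_rel : (QuotientGroup.mk' ⁅N, N⁆) (r px pu) = 1 := by
  rw [relation]
  exact (QuotientGroup.eq_one_iff _).2 (Subgroup.commutator_mem_commutator a_mem b_mem)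

/-- A computation in an arbitrary group. -/
lemma cube_eq_one {Q : Type} [Group Q] (X U : Q) (h1 : r X U = 1)
    (h2 : X * X * (U * (X * U * X⁻¹)) = U * (X * U * X⁻¹) * (X * X)) : U ^ 3 = 1 := by
  set V := X * U * X⁻¹ with hV
  have hVV : X * V * X⁻¹ = U⁻¹ * V := by
    rw [eq_inv_mul_iff_mul_eq]
    have : U * (X * V * X⁻¹) = r X U * V := by
      simp only [r, hV]; group
    rw [this, h1, one_mul]
  have e1 : X * (U * V) * X⁻¹ = V * (U⁻¹ * V) := by
    rw [← hVV, hV]; group
  have e2 : X * (V * (U⁻¹ * V)) * X⁻¹ = U⁻¹ * U⁻¹ * V := by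
    have : X * (V * (U⁻¹ * V)) * X⁻¹ = (X * V * X⁻¹) * (X * U * X⁻¹)⁻¹ * (X * V * X⁻¹) := by group
    rw [this, ← hV, hVV]; group
  have e3 : X * X * (U * V) * (X * X)⁻¹ = U⁻¹ * U⁻¹ * V := by
    rw [← e2, ← e1]; group
  have e4 : U⁻¹ * U⁻¹ * V = U * V := by
    rw [← e3, h2]; group
  have e5 : U⁻¹ * U⁻¹ = U := mul_right_cancel e4
  calc U ^ 3 = U * U * U := by rw [pow_succ, pow_two]
    _ = U * U * (U⁻¹ * U⁻¹) := by rw [e5]
    _ = 1 := by group

lemma uv_mem : pu * (px * pu * px⁻¹) ∈ N := by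
  rw [mem_Nk, map_mul, map_mul, map_mul, map_inv, Φ_x, Φ_u]
  decide +kernel

/-- The cube of `u` is a product of commutators of elements of `N`. -/
lemma u_cube : pu ^ 3 ∈ ⁅N, N⁆ := by
  rw [← QuotientGroup.eq_one_iff]
  change (QuotientGroup.mk' ⁅N, N⁆) (pu ^ 3) = 1
  rw [map_pow]
  apply cube_eq_one ((QuotientGroup.mk' ⁅N, N⁆) px)
  · rw [← map_r, comm_rel]
  · simp only [← map_mul, ← map_inv]
    have h : px * px * (pu * (px * pu * px⁻¹)) * (px * px)⁻¹ * (pu * (px * pu * px⁻¹))⁻¹ ∈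
        ⁅N, N⁆ := Subgroup.commutator_mem_commutator xx_mem uv_mem
    rw [← QuotientGroup.eq_one_iff] at h
    change (QuotientGroup.mk' ⁅N, N⁆) _ = 1 at h
    rw [map_mul, map_inv, map_mul, map_inv, mul_inv_eq_one, mul_inv_eq_iff_eq_mul] at h
    rw [← map_mul] at h
    exact h

/-- The set of normal generators. -/
def S0 : Set P := {pa, pb, px * px}

lemma closure_le : Subgroup.normalClosure S0 ≤ N := by
  apply Subgroup.normalClosure_le_normal
  rintro y (rfl | rfl | rfl)
  · exact a_mem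
  · exact b_mem
  · exact xx_mem

/-- Dihedral relations. -/
lemma dihedral {Q : Type} [Group Q] (X U : Q) (h1 : r X U = 1) (h2 : X * X = 1) :
    X * U = U ^ 2 * X ∧ U ^ 3 = 1 := by
  have hX : X⁻¹ = X := inv_eq_of_mul_eq_one_left h2
  have e1 : X * U * X = U * U := by
    have h3 : r X U = U * (X * X) * U * (X * U * X)⁻¹ := by simp only [r]; group
    rw [h1, h2, mul_one, eq_comm, mul_inv_eq_one] at h3
    exact h3.symm
  have e2 : X * U = U ^ 2 * X := by
    rw [pow_two, ← e1, mul_assoc (X * U), h2, mul_one]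
  refine ⟨e2, ?_⟩
  have e3 : X * (U * U) * X = U := by
    rw [← e1]
    calc X * (X * U * X) * X = (X * X) * U * (X * X) := by group
      _ = U := by rw [h2, one_mul, mul_one]
  have e4 : X * (U * U) * X = U * U * (U * U) := by
    calc X * (U * U) * X = (X * U) * U * X := by group
      _ = (U ^ 2 * X) * U * X := by rw [e2]
      _ = U ^ 2 * (X * U * X) := by group
      _ = U * U * (U * U) := by rw [e1, pow_two]
  rw [e3] at e4
  have e5 : U * U * U = 1 := by
    have : U * 1 = U * (U * U * U) := by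
      rw [mul_one]
      calc U = U * U * (U * U) := e4
        _ = U * (U * U * U) := by group
    exact (mul_left_cancel this).symm
  rw [pow_succ, pow_two, e5]

lemma X_mul_pow {Q : Type} [Group Q] (X U : Q) (h : X * U = U ^ 2 * X) (i : ℕ) :
    X * U ^ i = U ^ (2 * i) * X := by
  induction i with
  | zero => simp
  | succ i ih =>
    rw [pow_succ, ← mul_assoc, ih, mul_assoc, h, mul_add, pow_add, mul_one, mul_assoc]

/-- The quotient by the normal closure. -/
abbrev mkM : P →* P ⧸ Subgroup.normalClosure S0 := QuotientGroup.mk' (Subgroup.normalClosure S0)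

lemma mkM_a : mkM pa = 1 :=
  (QuotientGroup.eq_one_iff _).2 (Subgroup.subset_normalClosure (by simp [S0]))
lemma mkM_b : mkM pb = 1 :=
  (QuotientGroup.eq_one_iff _).2 (Subgroup.subset_normalClosure (by simp [S0]))
lemma mkM_xx : mkM px * mkM px = 1 := by
  rw [← map_mul]
  exact (QuotientGroup.eq_one_iff _).2 (Subgroup.subset_normalClosure (by simp [S0]))
lemma mkM_r : r (mkM px) (mkM pu) = 1 := by
  rw [← map_r, relation]
  simp only [map_mul, map_inv, mkM_a, mkM_b]
  simp

/-- Every element of `P` is congruent to some `u ^ i * x ^ j`. -/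
lemma normal_form (p : P) : ∃ i j : ℕ, mkM p = mkM pu ^ i * mkM px ^ j := by
  obtain ⟨h1, h2⟩ := dihedral (mkM px) (mkM pu) mkM_r mkM_xx
  have hXi : (mkM px)⁻¹ = mkM px := inv_eq_of_mul_eq_one_left mkM_xx
  have hUi : (mkM pu)⁻¹ = mkM pu ^ 2 := by
    apply inv_eq_of_mul_eq_one_left
    rw [← pow_succ, h2]
  have hp : p ∈ Subgroup.closure ({px, pu, pa, pb} : Set P) := by
    rw [closure_eq_top]; trivial
  have stepX : ∀ i j : ℕ, ∃ i' j' : ℕ,
      mkM px * (mkM pu ^ i * mkM px ^ j) = mkM pu ^ i' * mkM px ^ j' := by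
    intro i j
    refine ⟨2 * i, j + 1, ?_⟩
    rw [← mul_assoc, X_mul_pow _ _ h1, mul_assoc, ← pow_succ']
  have stepU : ∀ k i j : ℕ, ∃ i' j' : ℕ,
      mkM pu ^ k * (mkM pu ^ i * mkM px ^ j) = mkM pu ^ i' * mkM px ^ j' := by
    intro k i j
    refine ⟨k + i, j, ?_⟩
    rw [← mul_assoc, ← pow_add]
  induction hp using Subgroup.closure_induction_left with
  | one => exact ⟨0, 0, by simp⟩
  | mul_left g hg y _ ih =>
    obtain ⟨i, j, hy⟩ := ih
    rw [map_mul, hy]
    rcases hg with rfl | rfl | rfl | rfl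
    · exact stepX i j
    · simpa using stepU 1 i j
    · rw [mkM_a, one_mul]; exact ⟨i, j, rfl⟩
    · rw [mkM_b, one_mul]; exact ⟨i, j, rfl⟩
  | inv_mul_cancel g hg y _ ih =>
    obtain ⟨i, j, hy⟩ := ih
    rw [map_mul, map_inv, hy]
    rcases hg with rfl | rfl | rfl | rfl
    · rw [hXi]; exact stepX i j
    · rw [hUi]; exact stepU 2 i j
    · rw [mkM_a, inv_one, one_mul]; exact ⟨i, j, rfl⟩
    · rw [mkM_b, inv_one, one_mul]; exact ⟨i, j, rfl⟩

lemma N_le : N ≤ Subgroup.normalClosure S0 := by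
  intro p hp
  obtain ⟨i, j, hij⟩ := normal_form p
  rw [← map_pow, ← map_pow, ← map_mul] at hij
  obtain ⟨h1, h2⟩ := dihedral (mkM px) (mkM pu) mkM_r mkM_xx
  -- the element `u ^ i * x ^ j` lies in `N`
  have h3 : pu ^ i * px ^ j ∈ N := by
    have h4 : p⁻¹ * (pu ^ i * px ^ j) ∈ Subgroup.normalClosure S0 := QuotientGroup.eq.1 hij
    have := N.mul_mem hp (closure_le h4)
    rwa [mul_inv_cancel_left] at this
  rw [mem_Nk, map_mul, map_pow, map_pow, Φ_x, Φ_u] at h3
  have h5 : wu.right ^ i * wx.right ^ j = 1 := by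
    have e1 : ∀ (w : W) (n : ℕ), (w ^ n).right = w.right ^ n := fun w n =>
      map_pow (rightHom : W →* S3) w n
    rw [← e1, ← e1]
    exact h3
  have hc : wu.right ^ 3 = 1 := by decide +kernel
  have hs : wx.right ^ 2 = 1 := by decide +kernel
  have h6 : wu.right ^ (i % 3) * wx.right ^ (j % 2) = 1 := by
    rw [← pow_eq_pow_mod i hc, ← pow_eq_pow_mod j hs]
    exact h5
  have h7 : i % 3 = 0 ∧ j % 2 = 0 := by
    have hi : i % 3 < 3 := Nat.mod_lt _ (by norm_num)
    have hj : j % 2 < 2 := Nat.mod_lt _ (by norm_num)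
    generalize i % 3 = i' at *
    generalize j % 2 = j' at *
    have key : ∀ (i' : Fin 3) (j' : Fin 2), wu.right ^ (i' : ℕ) * wx.right ^ (j' : ℕ) = 1 →
      (i' : ℕ) = 0 ∧ (j' : ℕ) = 0 := by decide +kernel
    exact key ⟨i', hi⟩ ⟨j', hj⟩ h6
  have h8 : mkM p = 1 := by
    rw [hij, map_mul, map_pow, map_pow]
    obtain ⟨i', hi'⟩ := Nat.dvd_of_mod_eq_zero h7.1
    obtain ⟨j', hj'⟩ := Nat.dvd_of_mod_eq_zero h7.2
    rw [hi', hj', pow_mul, pow_mul, h2, pow_two, mkM_xx, one_pow, one_pow, one_mul]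
  exact (QuotientGroup.eq_one_iff _).1 h8

/-- `a` as an element of `N`. -/
def na : N := ⟨pa, a_mem⟩
/-- `b` as an element of `N`. -/
def nb : N := ⟨pb, b_mem⟩
/-- `x ^ 2` as an element of `N`. -/
def nx : N := ⟨px * px, xx_mem⟩

lemma surj (σ : S3) : ∃ q : P, (Φ q).right = σ := by
  have key : ∀ σ : S3, ∃ i : Fin 3, ∃ j : Fin 2,
      wu.right ^ (i : ℕ) * wx.right ^ (j : ℕ) = σ := by decide +kernel
  obtain ⟨i, j, h⟩ := key σ
  refine ⟨pu ^ (i : ℕ) * px ^ (j : ℕ), ?_⟩
  rw [map_mul, map_pow, map_pow, Φ_x, Φ_u]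
  have e1 : ∀ (w : W) (n : ℕ), (w ^ n).right = w.right ^ n := fun w n =>
    map_pow (rightHom : W →* S3) w n
  rw [mul_right, e1, e1, h]

/-- Representatives of the cosets. -/
noncomputable def rep (σ : S3) : P := (surj σ).choose
lemma rep_spec (σ : S3) : (Φ (rep σ)).right = σ := (surj σ).choose_spec

/-- The generating family of `N` modulo commutators. -/
noncomputable def e : I → N
  | Sum.inl σ => cj Φ (rep σ) na
  | Sum.inr (Sum.inl σ) => cj Φ (rep σ) nb
  | Sum.inr (Sum.inr k) => cj Φ (rep (Equiv.swap 2 k)) nx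

lemma e_gen (n : N) : Abelianization.of n ∈ Subgroup.closure
    (Set.range fun i => Abelianization.of (e i)) := by
  set R := Subgroup.closure (Set.range fun i => Abelianization.of (e i)) with hR
  have hmem : ∀ i, Abelianization.of (e i) ∈ R := fun i => Subgroup.subset_closure ⟨i, rfl⟩
  let C : Subgroup P := (R.comap (Abelianization.of : N →* _)).map N.subtype
  have hC : ∀ p : P, p ∈ Subgroup.normalClosure S0 → p ∈ C := by
    intro p hp
    have hle : Subgroup.normalClosure S0 ≤ C := by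
      rw [Subgroup.normalClosure, Subgroup.closure_le]
      intro z hz
      rw [Group.mem_conjugatesOfSet_iff] at hz
      obtain ⟨y, hy, hyz⟩ := hz
      obtain ⟨q, rfl⟩ := isConj_iff.1 hyz
      rcases hy with rfl | rfl | rfl
      · refine ⟨cj Φ q na, ?_, rfl⟩
        have := hmem (Sum.inl (Φ q).right)
        rw [e, of_cj Φ _ q _ (rep_spec _)] at this
        exact this
      · refine ⟨cj Φ q nb, ?_, rfl⟩
        have := hmem (Sum.inr (Sum.inl (Φ q).right))
        rw [e, of_cj Φ _ q _ (rep_spec _)] at this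
        exact this
      · refine ⟨cj Φ q nx, ?_, rfl⟩
        have h1 := hmem (Sum.inr (Sum.inr ((Φ q).right 2)))
        rw [e] at h1
        have key : ∀ σ : S3, Equiv.swap 2 (σ 2) = σ ∨ Equiv.swap 2 (σ 2) * wx.right = σ := by
          decide +kernel
        rcases key (Φ q).right with h | h
        · rw [of_cj Φ _ q _ ((rep_spec _).trans h)] at h1
          exact h1
        · have h2 : (Φ (rep (Equiv.swap 2 ((Φ q).right 2)) * px)).right = (Φ q).right := by
            rw [map_mul, mul_right, rep_spec, Φ_x, h]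
          have h3 : cj Φ (rep (Equiv.swap 2 ((Φ q).right 2)) * px) nx =
              cj Φ (rep (Equiv.swap 2 ((Φ q).right 2))) nx := by
            apply Subtype.ext
            simp only [cj, nx]
            group
          rw [← h3, of_cj Φ _ q _ h2] at h1
          exact h1
    exact hle hp
  obtain ⟨n', hn', hnn'⟩ := hC n (N_le n.2)
  have : n' = n := Subtype.ext hnn'
  rw [← this]
  exact hn'

/-- Evaluation at an index. -/
def ev (j : I) : Additive (I → Multiplicative ℤ) →+ ℤ where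
  toFun F := Multiplicative.toAdd (Additive.toMul F j)
  map_zero' := rfl
  map_add' _ _ := rfl

/-- The scaling factors. -/
def cf : I → ℤ
  | Sum.inl _ => 1
  | Sum.inr (Sum.inl _) => 1
  | Sum.inr (Sum.inr _) => 2

lemma Θ_a : Θ Φ na = δ (Sum.inl 1) := by
  change (Φ pa).left = _
  rw [Φ_a]; rfl
lemma Θ_b : Θ Φ nb = δ (Sum.inr (Sum.inl 1)) := by
  change (Φ pb).left = _
  rw [Φ_b]; rfl
lemma Θ_x : Θ Φ nx = δ (pt 2) * δ (pt 2) := by
  change (Φ (px * px)).left = _
  rw [map_mul, Φ_x]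
  funext i
  rcases i with i | i | i
  · revert i; decide +kernel
  · revert i; decide +kernel
  · revert i; decide +kernel

lemma ev_δ (i j : I) : Multiplicative.toAdd (δ i j) = if i = j then 1 else 0 := by
  by_cases h : i = j
  · subst h; simp [δ]
  · simp [δ, h, Pi.mulSingle_eq_of_ne' h]

lemma ev_e (i j : I) : ev j (Additive.ofMul (Θ Φ (e i))) = if i = j then cf i else 0 := by
  rcases i with σ | σ | k
  · rw [e, Θ_cj, rep_spec, Θ_a]
    change Multiplicative.toAdd (δ (Sum.inl 1) (σ⁻¹ • j)) = _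
    rw [ev_δ]
    have : (Sum.inl 1 = σ⁻¹ • j) ↔ (Sum.inl σ = j) := by
      rw [eq_inv_smul_iff]
      simp
    simp only [this, cf]
  · rw [e, Θ_cj, rep_spec, Θ_b]
    change Multiplicative.toAdd (δ (Sum.inr (Sum.inl 1)) (σ⁻¹ • j)) = _
    rw [ev_δ]
    have : (Sum.inr (Sum.inl 1) = σ⁻¹ • j) ↔ (Sum.inr (Sum.inl σ) = j) := by
      rw [eq_inv_smul_iff]
      simp
    simp only [this, cf]
  · rw [e, Θ_cj, rep_spec, Θ_x]
    change Multiplicative.toAdd (δ (pt 2) ((Equiv.swap 2 k)⁻¹ • j) *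
      δ (pt 2) ((Equiv.swap 2 k)⁻¹ • j)) = _
    rw [toAdd_mul, ev_δ]
    have : (pt 2 = (Equiv.swap 2 k)⁻¹ • j) ↔ (Sum.inr (Sum.inr k) = j) := by
      rw [eq_inv_smul_iff]
      simp
    simp only [this, cf]
    split_ifs <;> rfl

lemma e_li : LinearIndependent ℤ (fun i => Additive.ofMul (Θ Φ (e i))) := by
  rw [Fintype.linearIndependent_iff]
  intro g hg j
  have h := congrArg (ev j) hg
  rw [map_sum, map_zero] at h
  have h2 : ∀ i, ev j (g i • Additive.ofMul (Θ Φ (e i))) = if i = j then g i * cf i else 0 := by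
    intro i
    rw [map_zsmul, ev_e]
    split_ifs <;> simp
  simp only [h2, Finset.sum_ite_eq', Finset.mem_univ, if_true] at h
  rcases mul_eq_zero.1 h with h | h
  · exact h
  · rcases j with j | j | j <;> simp [cf] at h

theorem ab_torsionFree : ∀ x : Abelianization N, IsOfFinOrder x → x = 1 :=
  torsionFree e e_gen e_li

theorem quotient_torsion : ∃ g : P ⧸ ⁅N, N⁆, IsOfFinOrder g ∧ g ≠ 1 := by
  refine ⟨(pu : P ⧸ ⁅N, N⁆), ?_, ?_⟩
  · rw [isOfFinOrder_iff_pow_eq_one]
    refine ⟨3, by norm_num, ?_⟩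
    rw [← QuotientGroup.mk_pow]
    exact (QuotientGroup.eq_one_iff _).2 u_cube
  · intro h
    exact u_not_mem (Subgroup.commutator_le_left N N ((QuotientGroup.eq_one_iff _).1 h))

lemma N_index : N.index = 6 := by
  have h1 : N = (rightHom.comp Φ).ker := rfl
  rw [h1, Subgroup.index_ker]
  have h2 : (rightHom.comp Φ).range = ⊤ := by
    rw [MonoidHom.range_eq_top]
    intro σ
    exact surj σ
  rw [h2, Nat.card_congr (Subgroup.topEquiv (G := S3)).toEquiv, Nat.card_perm, Nat.card_fin]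
  rfl

end Pool.Agent.Parafree.One
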