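import Mathlib
import Pool.Agent.Parafree.Group
import Pool.Agent.Parafree.TorsionFree

set_option autoImplicit false

/-!
The normal subgroup with infinite cyclic quotient.
-/

namespace Pool.Agent.Parafree.Two

open SemidirectProduct Pool.Agent.Parafree

/-- The lattice. -/
abbrev Λ := (ℤ → ℤ) × (ℤ → ℤ) × (ℤ × ℤ)

/-- The automorphism of the lattice. -/
def T : Λ ≃+ Λ where
  toFun v := (fun i => v.1 (i - 1), fun i => v.2.1 (i - 1), (-v.2.2.2, v.2.2.1 + v.2.2.2))
  invFun v := (fun i => v.1 (i + 1), fun i => v.2.1 (i + 1), (v.2.2.2 + v.2.2.1, -v.2.2.1))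
  left_inv v := by
    ext <;> simp
  right_inv v := by
    ext <;> simp
  map_add' v w := by
    ext <;> simp <;> ring

/-- The automorphism in multiplicative form. -/
def Tm : MulAut (Multiplicative Λ) := AddEquiv.toMultiplicative T

/-- The action of the integers. -/
def φ2 : Multiplicative ℤ →* MulAut (Multiplicative Λ) := zpowersHom _ Tm

/-- The target group. -/
abbrev W := Multiplicative Λ ⋊[φ2] Multiplicative ℤ

/-- image of `x` -/
def wx : W := inr (Multiplicative.ofAdd 1)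
/-- image of `u` -/
def wu : W := inl (Multiplicative.ofAdd (0, 0, (1, 0)))
/-- image of `a` -/
def wa : W := inl (Multiplicative.ofAdd (Pi.single 0 1, 0, (0, 0)))
/-- image of `b` -/
def wb : W := inl (Multiplicative.ofAdd (0, Pi.single 0 1, (0, 0)))

lemma wx_conj (v : Multiplicative Λ) : wx * inl v * wx⁻¹ = inl (Tm v) := by
  have h := inl_aut (φ := φ2) (Multiplicative.ofAdd 1) v
  have h2 : φ2 (Multiplicative.ofAdd 1) = Tm := by simp [φ2]
  rw [h2] at h
  rw [h, wx, map_inv]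

lemma w_rel : r wx wu = wa * wb * wa⁻¹ * wb⁻¹ := by
  have h1 : wa * wb * wa⁻¹ * wb⁻¹ = 1 := by
    rw [wa, wb, ← map_mul, mul_comm (Multiplicative.ofAdd _), map_mul, mul_inv_cancel_right,
      mul_inv_cancel]
  rw [h1]
  have h2 : r wx wu = wu * (wx * (wx * wu * wx⁻¹) * wx⁻¹) * (wx * wu * wx⁻¹)⁻¹ := by
    simp only [r]; group
  rw [h2, wu, wx_conj, wx_conj, ← map_inv, ← map_mul, ← map_mul]
  have h3 : Multiplicative.ofAdd ((0, 0, (1, 0)) : Λ) *
      Tm (Tm (Multiplicative.ofAdd ((0, 0, (1, 0)) : Λ))) *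
      (Tm (Multiplicative.ofAdd ((0, 0, (1, 0)) : Λ)))⁻¹ = 1 := by
    change Multiplicative.ofAdd (((0, 0, (1, 0)) : Λ) + T (T (0, 0, (1, 0))) -
      T (0, 0, (1, 0))) = Multiplicative.ofAdd 0
    congr 1
  rw [h3, map_one]

/-- The homomorphism from `P`. -/
def Φ : P →* W := lift w_rel

@[simp] lemma Φ_x : Φ px = wx := lift_px _
@[simp] lemma Φ_u : Φ pu = wu := lift_pu _
@[simp] lemma Φ_a : Φ pa = wa := lift_pa _
@[simp] lemma Φ_b : Φ pb = wb := lift_pb _

/-- The normal subgroup. -/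
abbrev N : Subgroup P := Nk Φ

lemma a_mem : pa ∈ N := by rw [mem_Nk, Φ_a]; rfl
lemma b_mem : pb ∈ N := by rw [mem_Nk, Φ_b]; rfl
lemma u_mem : pu ∈ N := by rw [mem_Nk, Φ_u]; rfl

/-- The set of normal generators. -/
def S0 : Set P := {pa, pb, pu}

/-- The quotient by the normal closure. -/
abbrev mkM : P →* P ⧸ Subgroup.normalClosure S0 := QuotientGroup.mk' (Subgroup.normalClosure S0)

lemma mkM_a : mkM pa = 1 :=
  (QuotientGroup.eq_one_iff _).2 (Subgroup.subset_normalClosure (by simp [S0]))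
lemma mkM_b : mkM pb = 1 :=
  (QuotientGroup.eq_one_iff _).2 (Subgroup.subset_normalClosure (by simp [S0]))
lemma mkM_u : mkM pu = 1 :=
  (QuotientGroup.eq_one_iff _).2 (Subgroup.subset_normalClosure (by simp [S0]))

lemma normal_form (p : P) : ∃ k : ℤ, mkM p = mkM (px ^ k) := by
  have hp : p ∈ Subgroup.closure ({px, pu, pa, pb} : Set P) := by
    rw [closure_eq_top]; trivial
  induction hp using Subgroup.closure_induction_left with
  | one => exact ⟨0, by simp⟩
  | mul_left g hg y _ ih =>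
    obtain ⟨k, hy⟩ := ih
    rw [map_mul, hy]
    rcases hg with rfl | rfl | rfl | rfl
    · exact ⟨1 + k, by rw [zpow_add, zpow_one, map_mul]⟩
    · rw [mkM_u, one_mul]; exact ⟨k, rfl⟩
    · rw [mkM_a, one_mul]; exact ⟨k, rfl⟩
    · rw [mkM_b, one_mul]; exact ⟨k, rfl⟩
  | inv_mul_cancel g hg y _ ih =>
    obtain ⟨k, hy⟩ := ih
    rw [map_mul, map_inv, hy]
    rcases hg with rfl | rfl | rfl | rfl
    · exact ⟨-1 + k, by rw [zpow_add, zpow_neg_one, map_mul, map_inv]⟩
    · rw [mkM_u, inv_one, one_mul]; exact ⟨k, rfl⟩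
    · rw [mkM_a, inv_one, one_mul]; exact ⟨k, rfl⟩
    · rw [mkM_b, inv_one, one_mul]; exact ⟨k, rfl⟩

lemma closure_le : Subgroup.normalClosure S0 ≤ N := by
  apply Subgroup.normalClosure_le_normal
  rintro y (rfl | rfl | rfl)
  · exact a_mem
  · exact b_mem
  · exact u_mem

lemma right_zpow (k : ℤ) : (Φ (px ^ k)).right = Multiplicative.ofAdd k := by
  rw [map_zpow, Φ_x, wx, ← map_zpow, right_inr, ← ofAdd_zsmul, smul_eq_mul, mul_one]

lemma N_le : N ≤ Subgroup.normalClosure S0 := by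
  intro p hp
  obtain ⟨k, hk⟩ := normal_form p
  have h3 : px ^ k ∈ N := by
    have h4 : p⁻¹ * px ^ k ∈ Subgroup.normalClosure S0 := QuotientGroup.eq.1 hk
    have := N.mul_mem hp (closure_le h4)
    rwa [mul_inv_cancel_left] at this
  rw [mem_Nk, right_zpow] at h3
  have h5 : k = 0 := h3
  rw [h5, zpow_zero, map_one] at hk
  exact (QuotientGroup.eq_one_iff _).1 hk

/-- `a` as an element of `N`. -/
def na : N := ⟨pa, a_mem⟩
/-- `b` as an element of `N`. -/
def nb : N := ⟨pb, b_mem⟩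
/-- `u` as an element of `N`. -/
def nu : N := ⟨pu, u_mem⟩

/-- The class of the conjugate of `u` by `x ^ k`. -/
def c (k : ℤ) : Abelianization N := Abelianization.of (cj Φ (px ^ k) nu)

lemma c_rel (k : ℤ) : c k * c (k + 2) = c (k + 1) := by
  rw [← mul_inv_eq_one, c, c, c, ← map_mul, ← map_inv, ← map_mul]
  have h : cj Φ (px ^ k) nu * cj Φ (px ^ (k + 2)) nu * (cj Φ (px ^ (k + 1)) nu)⁻¹ =
      cj Φ (px ^ k) na * cj Φ (px ^ k) nb * (cj Φ (px ^ k) na)⁻¹ * (cj Φ (px ^ k) nb)⁻¹ := by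
    apply Subtype.ext
    simp only [cj, Subgroup.coe_mul, Subgroup.coe_inv]
    have h1 : px ^ k * (pa * pb * pa⁻¹ * pb⁻¹) * (px ^ k)⁻¹ =
        px ^ k * r px pu * (px ^ k)⁻¹ := by rw [relation]
    calc px ^ k * pu * (px ^ k)⁻¹ * (px ^ (k + 2) * pu * (px ^ (k + 2))⁻¹) *
          (px ^ (k + 1) * pu * (px ^ (k + 1))⁻¹)⁻¹
        = px ^ k * r px pu * (px ^ k)⁻¹ := by
          have e2 : px ^ (k + 2) = px ^ k * px * px := by
            rw [zpow_add, mul_assoc]; rfl
          have e1 : px ^ (k + 1) = px ^ k * px := zpow_add_one _ _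
          rw [e1, e2]
          simp only [r, mul_inv_rev, inv_inv, mul_assoc, inv_mul_cancel_left]
      _ = px ^ k * (pa * pb * pa⁻¹ * pb⁻¹) * (px ^ k)⁻¹ := h1.symm
      _ = _ := by
        change _ = px ^ k * pa * (px ^ k)⁻¹ * (px ^ k * pb * (px ^ k)⁻¹) *
          (px ^ k * pa * (px ^ k)⁻¹)⁻¹ * (px ^ k * pb * (px ^ k)⁻¹)⁻¹
        group
  rw [h, map_mul, map_mul, map_mul, map_inv, map_inv, mul_comm (Abelianization.of _),
    mul_inv_cancel_right, mul_inv_cancel]

/-- Index set. -/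
abbrev I := ℤ ⊕ ℤ ⊕ Fin 2

/-- The generating family of `N` modulo commutators. -/
def e : I → N
  | Sum.inl k => cj Φ (px ^ k) na
  | Sum.inr (Sum.inl k) => cj Φ (px ^ k) nb
  | Sum.inr (Sum.inr k) => cj Φ (px ^ ((k : ℕ) : ℤ)) nu

lemma e_gen (n : N) : Abelianization.of n ∈ Subgroup.closure
    (Set.range fun i => Abelianization.of (e i)) := by
  set R := Subgroup.closure (Set.range fun i => Abelianization.of (e i)) with hR
  have hmem : ∀ i, Abelianization.of (e i) ∈ R := fun i => Subgroup.subset_closure ⟨i, rfl⟩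
  have hc0 : c 0 ∈ R := hmem (Sum.inr (Sum.inr 0))
  have hc1 : c 1 ∈ R := hmem (Sum.inr (Sum.inr 1))
  have hc : ∀ k : ℤ, c k ∈ R ∧ c (k + 1) ∈ R := by
    intro k
    induction k with
    | zero => exact ⟨hc0, by simpa using hc1⟩
    | succ k ih =>
      refine ⟨ih.2, ?_⟩
      have h := c_rel k
      have h2 : c ((k : ℤ) + 1 + 1) = (c k)⁻¹ * c (k + 1) := by
        rw [← h, inv_mul_cancel_left, add_assoc]; norm_num
      rw [h2]
      exact R.mul_mem (R.inv_mem ih.1) ih.2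
    | pred k ih =>
      have h := c_rel (-(k : ℤ) - 1)
      have e1 : -(k : ℤ) - 1 + 2 = -(k : ℤ) + 1 := by ring
      have e2 : -(k : ℤ) - 1 + 1 = -(k : ℤ) := by ring
      rw [e1, e2] at h
      rw [e2]
      refine ⟨?_, ih.1⟩
      have h2 : c (-(k : ℤ) - 1) = c (-(k : ℤ)) * (c (-(k : ℤ) + 1))⁻¹ := by
        rw [← h, mul_inv_cancel_right]
      rw [h2]
      exact R.mul_mem ih.1 (R.inv_mem ih.2)
  let C : Subgroup P := (R.comap (Abelianization.of : N →* _)).map N.subtype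
  have hC : ∀ p : P, p ∈ Subgroup.normalClosure S0 → p ∈ C := by
    intro p hp
    have hle : Subgroup.normalClosure S0 ≤ C := by
      rw [Subgroup.normalClosure, Subgroup.closure_le]
      intro z hz
      rw [Group.mem_conjugatesOfSet_iff] at hz
      obtain ⟨y, hy, hyz⟩ := hz
      obtain ⟨q, rfl⟩ := isConj_iff.1 hyz
      have hq : (Φ (px ^ (Multiplicative.toAdd (Φ q).right))).right = (Φ q).right := by
        rw [right_zpow, ofAdd_toAdd]
      rcases hy with rfl | rfl | rfl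
      · refine ⟨cj Φ q na, ?_, rfl⟩
        have := hmem (Sum.inl (Multiplicative.toAdd (Φ q).right))
        rw [e, of_cj Φ _ q _ hq] at this
        exact this
      · refine ⟨cj Φ q nb, ?_, rfl⟩
        have := hmem (Sum.inr (Sum.inl (Multiplicative.toAdd (Φ q).right)))
        rw [e, of_cj Φ _ q _ hq] at this
        exact this
      · refine ⟨cj Φ q nu, ?_, rfl⟩
        have := (hc (Multiplicative.toAdd (Φ q).right)).1
        rw [c, of_cj Φ _ q _ hq] at this
        exact this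
    exact hle hp
  obtain ⟨n', hn', hnn'⟩ := hC n (N_le n.2)
  have : n' = n := Subtype.ext hnn'
  rw [← this]
  exact hn'

/-- Evaluation at an index. -/
def ev : I → (Additive (Multiplicative Λ) →+ ℤ)
  | Sum.inl k => ⟨⟨fun v => (v : Λ).1 k, rfl⟩, fun _ _ => rfl⟩
  | Sum.inr (Sum.inl k) => ⟨⟨fun v => (v : Λ).2.1 k, rfl⟩, fun _ _ => rfl⟩
  | Sum.inr (Sum.inr 0) => ⟨⟨fun v => (v : Λ).2.2.1, rfl⟩, fun _ _ => rfl⟩
  | Sum.inr (Sum.inr 1) => ⟨⟨fun v => (v : Λ).2.2.2, rfl⟩, fun _ _ => rfl⟩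

/-- First family of vectors. -/
def va (m : ℤ) : Multiplicative Λ := Multiplicative.ofAdd (Pi.single m 1, 0, (0, 0))
/-- Second family of vectors. -/
def vb (m : ℤ) : Multiplicative Λ := Multiplicative.ofAdd (0, Pi.single m 1, (0, 0))

lemma shift_single (m : ℤ) : (fun i : ℤ => (Pi.single m 1 : ℤ → ℤ) (i - 1)) =
    Pi.single (m + 1) 1 := by
  funext i
  by_cases h : i = m + 1
  · subst h; simp
  · rw [Pi.single_eq_of_ne h, Pi.single_eq_of_ne (fun h' => h (by omega))]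

lemma Tm_va (m : ℤ) : Tm (va m) = va (m + 1) := by
  change Multiplicative.ofAdd (T (Pi.single m 1, 0, (0, 0))) = _
  rw [va]
  congr 1
  refine Prod.ext (shift_single m) (Prod.ext ?_ ?_)
  · rfl
  · rfl

lemma Tm_vb (m : ℤ) : Tm (vb m) = vb (m + 1) := by
  change Multiplicative.ofAdd (T (0, Pi.single m 1, (0, 0))) = _
  rw [vb]
  congr 1
  refine Prod.ext ?_ (Prod.ext (shift_single m) ?_)
  · rfl
  · rfl

lemma Tm_zpow_va (k : ℤ) : ∀ m : ℤ, (Tm ^ k) (va m) = va (m + k) := by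
  induction k with
  | zero => intro m; simp
  | succ k ih =>
    intro m
    rw [zpow_add_one, MulAut.mul_apply, Tm_va, ih]
    congr 1; ring
  | pred k ih =>
    intro m
    have h : Tm⁻¹ (va m) = va (m - 1) := by
      rw [MulAut.inv_apply, MulEquiv.symm_apply_eq, Tm_va, sub_add_cancel]
    rw [zpow_sub_one, MulAut.mul_apply, h, ih]
    congr 1; ring

lemma Tm_zpow_vb (k : ℤ) : ∀ m : ℤ, (Tm ^ k) (vb m) = vb (m + k) := by
  induction k with
  | zero => intro m; simp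
  | succ k ih =>
    intro m
    rw [zpow_add_one, MulAut.mul_apply, Tm_vb, ih]
    congr 1; ring
  | pred k ih =>
    intro m
    have h : Tm⁻¹ (vb m) = vb (m - 1) := by
      rw [MulAut.inv_apply, MulEquiv.symm_apply_eq, Tm_vb, sub_add_cancel]
    rw [zpow_sub_one, MulAut.mul_apply, h, ih]
    congr 1; ring

lemma Θ_cj_zpow (k : ℤ) (n : N) : Θ Φ (cj Φ (px ^ k) n) = (Tm ^ k) (Θ Φ n) := by
  rw [Θ_cj, right_zpow]
  change (zpowersHom _ Tm (Multiplicative.ofAdd k)) _ = _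
  rw [zpowersHom_apply, toAdd_ofAdd]

lemma Θ_a : Θ Φ na = va 0 := by
  change (Φ pa).left = _
  rw [Φ_a]; rfl
lemma Θ_b : Θ Φ nb = vb 0 := by
  change (Φ pb).left = _
  rw [Φ_b]; rfl
lemma Θ_u : Θ Φ nu = Multiplicative.ofAdd (0, 0, (1, 0)) := by
  change (Φ pu).left = _
  rw [Φ_u]; rfl

lemma ev_e (i j : I) : ev j (Additive.ofMul (Θ Φ (e i))) = if i = j then 1 else 0 := by
  rcases i with k | k | k
  · rw [e, Θ_cj_zpow, Θ_a, Tm_zpow_va, zero_add]
    rcases j with m | m | m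
    · change (Pi.single k 1 : ℤ → ℤ) m = _
      simp [Pi.single_apply, eq_comm]
    · change (0 : ℤ) = _
      simp
    · fin_cases m <;> (change (0 : ℤ) = _; simp)
  · rw [e, Θ_cj_zpow, Θ_b, Tm_zpow_vb, zero_add]
    rcases j with m | m | m
    · change (0 : ℤ) = _
      simp
    · change (Pi.single k 1 : ℤ → ℤ) m = _
      simp [Pi.single_apply, eq_comm]
    · fin_cases m <;> (change (0 : ℤ) = _; simp)
  · rw [e, Θ_cj_zpow, Θ_u]
    fin_cases k
    · rcases j with m | m | m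
      · change (0 : ℤ) = _
        simp
      · change (0 : ℤ) = _
        simp
      · fin_cases m
        · change (1 : ℤ) = _
          simp
        · change (0 : ℤ) = _
          simp
    · rcases j with m | m | m
      · change (0 : ℤ) = _
        simp
      · change (0 : ℤ) = _
        simp
      · fin_cases m
        · change (0 : ℤ) = _
          simp
        · change (1 : ℤ) = _
          simp

lemma e_li : LinearIndependent ℤ (fun i => Additive.ofMul (Θ Φ (e i))) := by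
  rw [linearIndependent_iff']
  intro s g hg j hj
  have h := congrArg (ev j) hg
  rw [map_sum, map_zero] at h
  have h2 : ∀ i, ev j (g i • Additive.ofMul (Θ Φ (e i))) = if i = j then g i else 0 := by
    intro i
    rw [map_zsmul, ev_e]
    split_ifs <;> simp
  simpa only [h2, Finset.sum_ite_eq', hj, if_true] using h

theorem ab_torsionFree : ∀ x : Abelianization N, IsOfFinOrder x → x = 1 :=
  torsionFree e e_gen e_li

lemma commutator_le_ker : ⁅N, N⁆ ≤ Φ.ker := by
  rw [Subgroup.commutator_le]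
  intro n hn m hm
  rw [MonoidHom.mem_ker, commutatorElement_def, map_mul, map_mul, map_mul, map_inv, map_inv,
    Φ_eq Φ ⟨n, hn⟩, Φ_eq Φ ⟨m, hm⟩, ← map_mul, mul_comm (Θ Φ _), map_mul, mul_inv_cancel_right,
    mul_inv_cancel]

lemma u_not_mem : pu ∉ ⁅N, N⁆ := by
  intro h
  have h1 := commutator_le_ker h
  rw [MonoidHom.mem_ker, Φ_u] at h1
  have h2 : wu.left = 1 := by rw [h1]; rfl
  have h3 : ((wu.left : Multiplicative Λ) : Λ).2.2.1 = 0 := by rw [h2]; rfl
  have h4 : ((wu.left : Multiplicative Λ) : Λ).2.2.1 = 1 := rfl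
  rw [h4] at h3
  exact one_ne_zero h3

/-- A computation in an arbitrary group. -/
lemma square_eq {Q : Type} [Group Q] (X U : Q) (h1 : r X U = 1)
    (h2 : U * (X * U * X⁻¹) = (X * U * X⁻¹) * U) : (X ^ 3 * U) ^ 2 = (X ^ 3) ^ 2 := by
  set V := X * U * X⁻¹ with hV
  have hVV : X * V * X⁻¹ = U⁻¹ * V := by
    rw [eq_inv_mul_iff_mul_eq]
    have : U * (X * V * X⁻¹) = r X U * V := by
      simp only [r, hV]; group
    rw [this, h1, one_mul]
  have h3 : X ^ 3 * U * (X ^ 3)⁻¹ = U⁻¹ := by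
    have e1 : X ^ 3 * U * (X ^ 3)⁻¹ = X * (X * V * X⁻¹) * X⁻¹ := by
      rw [hV, pow_succ, pow_two]; group
    have e2 : X * (X * V * X⁻¹) * X⁻¹ = V⁻¹ * (U⁻¹ * V) := by
      rw [hVV]
      calc X * (U⁻¹ * V) * X⁻¹ = (X * U * X⁻¹)⁻¹ * (X * V * X⁻¹) := by group
        _ = V⁻¹ * (U⁻¹ * V) := by rw [hVV]
    rw [e1, e2, inv_mul_eq_iff_eq_mul]
    -- `U⁻¹ * V = V * U⁻¹`
    rw [inv_mul_eq_iff_eq_mul, ← mul_assoc, h2, mul_inv_cancel_right]
  have h4 : X ^ 3 * U = U⁻¹ * X ^ 3 := by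
    rw [← h3]; group
  have h5 : X ^ 3 * (X ^ 3 * U) = U * (X ^ 3 * X ^ 3) := by
    have h6 : X ^ 3 * U⁻¹ = U * X ^ 3 := by
      have : (X ^ 3 * U * (X ^ 3)⁻¹)⁻¹ = U := by rw [h3, inv_inv]
      calc X ^ 3 * U⁻¹ = (X ^ 3 * U * (X ^ 3)⁻¹)⁻¹ * X ^ 3 := by group
        _ = U * X ^ 3 := by rw [this]
    rw [h4, ← mul_assoc, h6, mul_assoc]
  rw [pow_two, pow_two]
  calc X ^ 3 * U * (X ^ 3 * U) = U⁻¹ * (X ^ 3 * (X ^ 3 * U)) := by rw [h4]; group
    _ = X ^ 3 * X ^ 3 := by rw [h5, inv_mul_cancel_left]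

theorem not_unique_roots : ∃ x y : P ⧸ ⁅N, N⁆, x ^ 2 = y ^ 2 ∧ x ≠ y := by
  refine ⟨((px ^ 3 * pu : P) : P ⧸ ⁅N, N⁆), ((px ^ 3 : P) : P ⧸ ⁅N, N⁆), ?_, ?_⟩
  · have h1 : r (QuotientGroup.mk' ⁅N, N⁆ px) (QuotientGroup.mk' ⁅N, N⁆ pu) = 1 := by
      rw [← map_r, relation]
      exact (QuotientGroup.eq_one_iff _).2 (Subgroup.commutator_mem_commutator a_mem b_mem)
    have h2 : QuotientGroup.mk' ⁅N, N⁆ pu * (QuotientGroup.mk' ⁅N, N⁆ px *
        QuotientGroup.mk' ⁅N, N⁆ pu * (QuotientGroup.mk' ⁅N, N⁆ px)⁻¹) =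
        (QuotientGroup.mk' ⁅N, N⁆ px * QuotientGroup.mk' ⁅N, N⁆ pu *
          (QuotientGroup.mk' ⁅N, N⁆ px)⁻¹) * QuotientGroup.mk' ⁅N, N⁆ pu := by
      have hv : px * pu * px⁻¹ ∈ N := Subgroup.Normal.conj_mem inferInstance _ u_mem _
      have h := Subgroup.commutator_mem_commutator u_mem hv
      rw [← QuotientGroup.eq_one_iff] at h
      change QuotientGroup.mk' ⁅N, N⁆ _ = 1 at h
      rw [commutatorElement_def, map_mul, map_inv, mul_inv_eq_one, map_mul, map_inv,
        mul_inv_eq_iff_eq_mul] at h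
      simpa only [map_mul, map_inv] using h
    have h3 := square_eq _ _ h1 h2
    rw [← map_pow, ← map_mul, ← map_pow, ← map_pow] at h3
    exact h3
  · intro h
    rw [QuotientGroup.eq] at h
    apply u_not_mem
    have h2 := inv_mem h
    have h3 : ((px ^ 3 * pu)⁻¹ * px ^ 3)⁻¹ = (px ^ 3)⁻¹ * (px ^ 3 * pu) := by group
    rw [h3, inv_mul_cancel_left] at h2
    exact h2

theorem quotient_torsionFree : ∀ x : P ⧸ N, IsOfFinOrder x → x = 1 := by
  intro x hx
  let f : P ⧸ N →* Multiplicative ℤ := QuotientGroup.kerLift (rightHom.comp Φ)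
  have hf : Function.Injective f := QuotientGroup.kerLift_injective _
  apply hf
  rw [map_one]
  have h1 : IsOfFinOrder (f x) := MonoidHom.isOfFinOrder f hx
  obtain ⟨n, hn, h⟩ := isOfFinOrder_iff_pow_eq_one.1 h1
  have h2 : (n : ℤ) * Multiplicative.toAdd (f x) = 0 := by
    have := congrArg Multiplicative.toAdd h
    rwa [toAdd_pow, nsmul_eq_mul, toAdd_one] at this
  rcases mul_eq_zero.1 h2 with h3 | h3
  · exact absurd h3 (by exact_mod_cast hn.ne')
  · exact h3

end Pool.Agent.Parafree.Two
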